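import Pool.Agent.P.MP_8707bd_ag.Small.Mul
import Pool.Agent.P.MP_8707bd_ag.Win.TransferE
import Pool.Agent.P.MP_8707bd_ag.Ex.Gen
import Pool.Agent.P.MP_8707bd_ag.Irr.GlueA

/-!
Semicontinuity and comparison with the other descriptions (helper file only).
-/

namespace Pool.Agent.P.MP_8707bd_ag.Small

open MvPolynomial Module All Win

variable {r : ℕ}

theorem scale_fa {q : Fin 3 → ℂ} {t : ℂ} (ht : t ≠ 0) {F : MvPolynomial (Fin 3) ℂ} {d : ℕ}
    (hF : F.IsHomogeneous d) {k : ℕ} (h : F ∈ mx (fun i => t * q i) ^ k) : F ∈ mx q ^ k := by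
  let σ : MvPolynomial (Fin 3) ℂ →+* MvPolynomial (Fin 3) ℂ := eval₂Hom C fun i => C t * X i
  have hσ : ∀ (v : Fin 3 → ℂ) (G : MvPolynomial (Fin 3) ℂ),
      eval v (σ G) = eval (fun i => t * v i) G := by
    intro v G
    have : (eval v).comp σ = eval fun i => t * v i :=
      ringHom_ext (fun a => by simp [σ]) fun i => by simp [σ]
    exact congrArg (fun φ : MvPolynomial (Fin 3) ℂ →+* ℂ => φ G) this
  have h1 : σ F ∈ mx q ^ k := pow_map_mem σ _ _ (fun a ha => (hσ q a).trans ha) k F h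
  have h2 : F = C (t ^ d)⁻¹ * σ F := by
    refine MvPolynomial.funext fun v => ?_
    rw [map_mul, eval_C, hσ, Irr.eval_smul_homog hF, ← mul_assoc,
      inv_mul_cancel₀ (pow_ne_zero d ht), one_mul]
  rw [h2]
  exact Ideal.mul_mem_left _ _ h1

theorem eq_smul_fa {q : Fin 3 → ℂ} (hq : q 2 ≠ 0) :
    q = fun j => q 2 * (![q 0 / q 2, q 1 / q 2, 1] : Fin 3 → ℂ) j := by
  ext j
  fin_cases j <;> simp <;> field_simp

theorem pt_eq_fa {q : Fin 3 → ℂ} (hq : q 2 ≠ 0) :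
    ptIdeal ![q 0 / q 2, q 1 / q 2, 1] = ptIdeal q := by
  unfold ptIdeal
  congr 1
  ext L
  refine and_congr_right fun hL => ?_
  conv_rhs => rw [eq_smul_fa hq, Irr.eval_smul_homog hL]
  simp [hq]

/-- Sketch of the converse direction: `mem_pow_of_coeff`; the form `shear (q / q 2) F` lies in the
power of `mx ![0, 0, q 2]` (`pow_map_mem`); substitute `X 2 ↦ C (q 2)` and use
`mem_pow_idealOfVars_iff'`. -/
theorem pt_iff_mx {q : Fin 3 → ℂ} (hq : q 2 ≠ 0) {F : MvPolynomial (Fin 3) ℂ} {d : ℕ}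
    (hF : F.IsHomogeneous d) (k : ℕ) : F ∈ ptIdeal q ^ k ↔ F ∈ mx q ^ k := by
  refine ⟨fun h => Ideal.pow_right_mono (Ideal.span_le.2 fun L hL => hL.2) k h, fun h => ?_⟩
  rw [eq_smul_fa hq] at h
  have h1 := scale_fa hq hF h
  rw [← pt_eq_fa hq]
  refine Irr.mem_of_van _ _ k d F hF fun e he => ?_
  have h2 := pow_map_mem (Irr.shR (RingHom.id ℂ) ![q 0 / q 2, q 1 / q 2, 1]) _
    (idealOfVars (Fin 2) ℂ) (fun a ha => by
      rw [mem_vars_iff, Irr.eval_shR]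
      have : eval ![q 0 / q 2, q 1 / q 2, 1] a = 0 := ha
      simpa using this) k F h1
  rw [mem_pow_idealOfVars_iff'] at h2
  exact h2 e (by rwa [Irr.deg_two])

theorem fat_eq_fz {p : Fin r → Fin 3 → ℂ} (hp : ∀ i, p i 2 ≠ 0) (μ : Fin r → ℕ) (d : ℕ) :
    fat p μ d = fz p (cl d μ) := by
  ext G
  rw [mem_fat, mem_fz_cl]
  exact and_congr_right fun hG => forall_congr' fun i => pt_iff_mx (hp i) hG _

theorem fz_eq_cl_fa (p : Fin r → Fin 3 → ℂ) {D : Cl r} (h : 0 ≤ D.1) :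
    fz p D = fz p (cl D.1.toNat fun i => (D.2 i).toNat) := by
  have h1 : D.1 = (cl D.1.toNat fun i => (D.2 i).toNat).1 := (Int.toNat_of_nonneg h).symm
  exact le_antisymm (fz_mono p h1 fun _ => (Int.toNat_natCast _).le)
    (fz_mono p h1.symm fun _ => (Int.toNat_natCast _).ge)

theorem hh_eq_cl_fa {D : Cl r} (h : 0 ≤ D.1) :
    hh D = hh (cl D.1.toNat fun i => (D.2 i).toNat) :=
  hh_congr (Int.toNat_of_nonneg h).symm fun _ => Int.toNat_natCast _

theorem tForm_hom_fa {d : ℕ} (c : TCol d → ℂ) : (tForm c).IsHomogeneous d := by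
  refine IsHomogeneous.sum _ _ _ fun n _ => isHomogeneous_monomial _ ?_
  rw [degree_three]
  exact tCol_sum n

theorem tForm_inj_fa {d : ℕ} {c : TCol d → ℂ} (h : tForm c = 0) : c = 0 := by
  classical
  funext n0
  have h3 := congrArg (coeff n0.1) h
  rw [tForm, coeff_sum, Finset.sum_eq_single n0] at h3
  · simpa using h3
  · intro n _ hne
    rw [coeff_monomial, if_neg fun h4 => hne (Subtype.ext h4)]
  · intro h4
    exact absurd (Finset.mem_univ _) h4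

theorem generic_cl_fa (d : ℕ) (μ : Fin r → ℕ) : ∃ Φ : MvPolynomial (Fin r × Fin 3) ℂ, Φ ≠ 0 ∧
    ∀ p : Fin r → Fin 3 → ℂ, eval (fun ij : Fin r × Fin 3 => p ij.1 ij.2) Φ ≠ 0 →
      finrank ℂ (fz p (cl d μ)) = hh (cl d μ) := by
  classical
  obtain ⟨p₀, hp₀⟩ := exists_hh (cl d μ)
  set e := hh (cl d μ) with he
  let φ : fz p₀ (cl d μ) ≃ₗ[ℂ] (Fin e → ℂ) := LinearEquiv.ofFinrankEq _ _ (by simpa using hp₀)
  obtain ⟨L, hL⟩ := LinearMap.exists_extend φ.toLinearMap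
  let M : Matrix (Fin e) (TCol d) ℂ := fun a n => L (monomial n.1 1) a
  have hM : ∀ c : TCol d → ℂ, M.mulVec c = L (tForm c) := by
    intro c
    funext a
    simp only [Matrix.mulVec, dotProduct, M, tForm, map_sum, Finset.sum_apply]
    refine Finset.sum_congr rfl fun n _ => ?_
    have : (monomial n.1 (c n) : MvPolynomial (Fin 3) ℂ) = c n • monomial n.1 (1 : ℂ) := by
      rw [smul_monomial, smul_eq_mul, mul_one]
    rw [this, map_smul, Pi.smul_apply, smul_eq_mul, mul_comm]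
  have hN : ∀ (p : Fin r → Fin 3 → ℂ) (c : TCol d → ℂ),
      (Matrix.fromRows (tMat p μ d) M).mulVec c = 0 ↔
        (∀ i, tForm c ∈ mx (p i) ^ μ i) ∧ L (tForm c) = 0 := by
    intro p c
    rw [Matrix.fromRows_mulVec, ← tMat_van, hM]
    constructor
    · intro h
      exact ⟨funext fun ρ => congrFun h (Sum.inl ρ), funext fun a => congrFun h (Sum.inr a)⟩
    · rintro ⟨h1, h2⟩
      rw [h1, h2]
      funext ρ
      rcases ρ with ρ | a <;> rfl
  obtain ⟨g, hg⟩ := Row.exists_minor (Matrix.fromRows (tMat p₀ μ d) M) fun c hc => by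
    obtain ⟨h1, h2⟩ := (hN p₀ c).1 hc
    have h3 : tForm c ∈ fz p₀ (cl d μ) := mem_fz_cl.2 ⟨tForm_hom_fa c, h1⟩
    have h4 : φ ⟨tForm c, h3⟩ = 0 := (DFunLike.congr_fun hL ⟨tForm c, h3⟩).symm.trans h2
    exact tForm_inj_fa (congrArg Subtype.val (φ.map_eq_zero_iff.1 h4))
  set M0 : Matrix (TRow μ ⊕ Fin e) (TCol d) (MvPolynomial (Fin r × Fin 3) ℂ) :=
    Matrix.fromRows (tMat (fun i k => X (i, k)) μ d) (M.map C) with hM0
  have key : ∀ p : Fin r → Fin 3 → ℂ,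
      eval (fun ij : Fin r × Fin 3 => p ij.1 ij.2) (M0.submatrix g id).det =
        ((Matrix.fromRows (tMat p μ d) M).submatrix g id).det := by
    intro p
    have h1 := tMat_map (eval (fun ij : Fin r × Fin 3 => p ij.1 ij.2))
      (fun i k => X (i, k)) μ d
    simp only [eval_X] at h1
    have h2 : M0.map (eval (fun ij : Fin r × Fin 3 => p ij.1 ij.2)) =
        Matrix.fromRows (tMat p μ d) M := by
      ext ρ n
      rcases ρ with ρ | a
      · exact congrFun (congrFun h1 ρ) n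
      · exact eval_C _
    rw [RingHom.map_det, ← h2]
    rfl
  refine ⟨(M0.submatrix g id).det, fun h0 => hg ?_, fun p hp => ?_⟩
  · rw [← key p₀, h0, map_zero]
  · rw [key] at hp
    refine le_antisymm ?_ (hh_le p _)
    have hi : Function.Injective (L ∘ₗ (fz p (cl d μ)).subtype) := by
      rw [injective_iff_map_eq_zero]
      rintro ⟨F, hF⟩ hF0
      obtain ⟨hF1, hF2⟩ := mem_fz_cl.1 hF
      have h2 := tForm_coeff F hF1
      have h4 := Row.inj_of_minor _ g hp (fun n : TCol d => F.coeff n.1)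
        ((hN p _).2 (by rw [h2]; exact ⟨hF2, hF0⟩))
      rw [h4] at h2
      refine Subtype.ext ?_
      change F = 0
      rw [← h2]
      simp [tForm]
    simpa using LinearMap.finrank_le_finrank_of_injective hi

/-- Sketch: compare `transferE`. Take `p₀` from `exists_hh`, add to `tMat` the rows of a linear map
to `Fin (hh D) → ℂ` that is injective on the kernel at `p₀`; `Row.exists_minor`,
`Row.inj_of_minor`. -/
theorem hh_generic (D : Cl r) : ∃ Φ : MvPolynomial (Fin r × Fin 3) ℂ, Φ ≠ 0 ∧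
    ∀ p : Fin r → Fin 3 → ℂ, eval (fun ij : Fin r × Fin 3 => p ij.1 ij.2) Φ ≠ 0 →
      finrank ℂ (fz p D) = hh D := by
  rcases lt_or_ge D.1 0 with h | h
  · refine ⟨1, one_ne_zero, fun p _ => ?_⟩
    rw [hh_of_neg h, fz, if_pos h, finrank_bot]
  · obtain ⟨Φ, h0, hΦ⟩ := generic_cl_fa D.1.toNat fun i => (D.2 i).toNat
    exact ⟨Φ, h0, fun p hp => by rw [fz_eq_cl_fa p h, hh_eq_cl_fa h, hΦ p hp]⟩

/-- Only finitely many classes matter (`fz_eq_bot`, `fz_mono`, `hh_congr`). -/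
theorem exists_gen (r B : ℕ) : ∃ Φ : MvPolynomial (Fin r × Fin 3) ℂ, Φ ≠ 0 ∧
    ∀ p : Fin r → Fin 3 → ℂ, eval (fun ij : Fin r × Fin 3 => p ij.1 ij.2) Φ ≠ 0 → Gen B p := by
  choose Ψ h0 hΨ using fun (x : Fin (B + 1) × (Fin r → Fin (B + 1))) =>
    generic_cl_fa (r := r) x.1 fun i => x.2 i
  refine ⟨(∏ i : Fin r, X (i, 2)) * ∏ x, Ψ x, mul_ne_zero
    (Finset.prod_ne_zero_iff.2 fun i _ => X_ne_zero _) (Finset.prod_ne_zero_iff.2 fun x _ => h0 x),
    fun p hp => ?_⟩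
  rw [map_mul, map_prod, map_prod, mul_ne_zero_iff, Finset.prod_ne_zero_iff,
    Finset.prod_ne_zero_iff] at hp
  refine ⟨fun i => by simpa using hp.1 i (Finset.mem_univ i), fun D hD => ?_⟩
  rcases lt_or_ge D.1 0 with h | h
  · rw [hh_of_neg h, fz, if_pos h, finrank_bot]
  by_cases h1 : ∃ i, D.1 < D.2 i
  · obtain ⟨i, hi⟩ := h1
    rw [fz_eq_bot hi, hh_of_lt hi, finrank_bot]
  · push Not at h1
    rw [fz_eq_cl_fa p h, hh_eq_cl_fa h]
    exact hΨ (⟨D.1.toNat, by omega⟩, fun i => ⟨(D.2 i).toNat, by have := h1 i; omega⟩) p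
      (hp.2 _ (Finset.mem_univ _))

theorem exists_pt_fa (Φ : MvPolynomial (Fin r × Fin 3) ℂ) (h : Φ ≠ 0) :
    ∃ p : Fin r → Fin 3 → ℂ, eval (fun ij : Fin r × Fin 3 => p ij.1 ij.2) Φ ≠ 0 := by
  by_contra hc
  push Not at hc
  exact h (MvPolynomial.funext fun x => by simpa using hc fun i k => x (i, k))

theorem exists_gen_pt (r B : ℕ) : ∃ p : Fin r → Fin 3 → ℂ, Gen B p := by
  obtain ⟨Φ, h0, hΦ⟩ := exists_gen r B
  obtain ⟨p, hp⟩ := exists_pt_fa Φ h0
  exact ⟨p, hΦ p hp⟩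

theorem lower_fa (p : Fin r → Fin 3 → ℂ) (hp : ∀ i, p i 2 ≠ 0) (μ : Fin r → ℕ) (d : ℕ) :
    (d + 2).choose 2 ≤ finrank ℂ (fat p μ d) + ∑ i, (μ i + 1).choose 2 := by
  let Λ : homogeneousSubmodule (Fin 3) ℂ d →ₗ[ℂ] ((Σ i : Fin r, pairs (μ i)) → ℂ) :=
    LinearMap.pi fun iq => (lcoeff ℂ (expo d iq.2.1.2)) ∘ₗ
      (shear (fun a => p iq.1 a / p iq.1 2)).toLinearMap ∘ₗ (homogeneousSubmodule _ ℂ d).subtype
  have h1 := Λ.finrank_range_add_finrank_ker
  have h2 : finrank ℂ (LinearMap.range Λ) ≤ ∑ i, (μ i + 1).choose 2 := by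
    refine (Submodule.finrank_le _).trans ?_
    simp [card_pairs]
  have h3 : finrank ℂ (LinearMap.ker Λ) ≤ finrank ℂ (fat p μ d) := by
    rw [← Submodule.finrank_map_subtype_eq]
    refine Submodule.finrank_mono ?_
    rintro _ ⟨G, hG, rfl⟩
    refine mem_fat.2 ⟨G.2, fun i => ?_⟩
    refine mem_pow_of_coeff (p i) (hp i) (μ i) d G G.2 fun q hq => ?_
    exact congrFun (LinearMap.mem_ker.1 hG) ⟨i, ⟨q, hq⟩⟩
  have h4 := finrank_hom_ge d
  omega

theorem two_choose_fa (n : ℕ) : 2 * (((n + 1).choose 2 : ℕ) : ℤ) = n * (n + 1) := by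
  induction n with
  | zero => simp
  | succ k ih =>
    rw [Nat.choose_succ_succ' (k + 1) 1, Nat.choose_one_right]
    push_cast at ih ⊢
    linear_combination ih

/-- As `lower_bound`, with different multiplicities; `a * (a + 1) ≥ 0` for negative `a`. -/
theorem chi2_le {D : Cl r} (h : 0 ≤ D.1) : chi2 D ≤ 2 * (hh D : ℤ) := by
  obtain ⟨p, hp⟩ := exists_gen_pt r D.1.toNat
  have h1 := hp.2 D (Int.toNat_of_nonneg h).ge
  rw [fz_eq_cl_fa p h, ← fat_eq_fz hp.1] at h1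
  have h2 := lower_fa p hp.1 (fun i => (D.2 i).toNat) D.1.toNat
  rw [h1] at h2
  have h3 : (((D.1.toNat + 1 + 1).choose 2 : ℕ) : ℤ) ≤
      hh D + ∑ i, ((((D.2 i).toNat + 1).choose 2 : ℕ) : ℤ) := by exact_mod_cast h2
  have h4 := two_choose_fa (D.1.toNat + 1)
  have h5 : 2 * ∑ i, ((((D.2 i).toNat + 1).choose 2 : ℕ) : ℤ) ≤ ∑ i, D.2 i * (D.2 i + 1) := by
    rw [Finset.mul_sum]
    refine Finset.sum_le_sum fun i _ => ?_
    rw [two_choose_fa]
    rcases lt_or_ge (D.2 i) 0 with h6 | h6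
    · rw [Int.toNat_of_nonpos h6.le]
      simp only [Nat.cast_zero, zero_mul]
      exact mul_nonneg_of_nonpos_of_nonpos h6.le (by omega)
    · rw [Int.toNat_of_nonneg h6]
  rw [Nat.cast_add, Int.toNat_of_nonneg h] at h4
  unfold chi2
  push_cast at h4
  nlinarith

theorem hh_le_of_ke {μ : Fin r → ℕ} {d e : ℕ} (h : KE (tri (d + 1)) μ e) : hh (cl d μ) ≤ e := by
  obtain ⟨Φ, h0, hΦ⟩ := transferE μ d e h
  obtain ⟨Ψ, h1, hΨ⟩ := exists_gen r 0
  obtain ⟨p, hp⟩ := exists_pt_fa (Φ * Ψ) (mul_ne_zero h0 h1)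
  rw [map_mul, mul_ne_zero_iff] at hp
  have h2 := hΦ p hp.1
  rw [fat_eq_fz (hΨ p hp.2).1] at h2
  exact (hh_le p _).trans h2

/-- Sketch: take a general `p`, put `P i = (p i 0 / p i 2, p i 1 / p i 2)`, homogenise
(`Irr.hom3`, or the inverse of the dehomogenisation in `inj_of_ke`) and use `Ex.ke_of_rank`. -/
theorem ke_of_hh_le {μ : Fin r → ℕ} {d e : ℕ} (h : hh (cl d μ) ≤ e) : KE (tri (d + 1)) μ e := by
  obtain ⟨p, hp⟩ := exists_gen_pt r d
  have h1 := hp.2 (cl d μ) le_rfl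
  rw [← fat_eq_fz hp.1] at h1
  refine Ex.ke_of_rank (tri_finite _) (fun i => ![p i 0 / p i 2, p i 1 / p i 2]) μ e ?_
  let Dh : MvPolynomial (Fin 3) ℂ →ₐ[ℂ] MvPolynomial (Fin 2) ℂ := aeval ![X 0, X 1, 1]
  have hD : ∀ F, Dh F = Irr.shR (RingHom.id ℂ) ![0, 0, 1] F := fun F => by
    have : (Dh : MvPolynomial (Fin 3) ℂ →+* MvPolynomial (Fin 2) ℂ) =
        Irr.shR (RingHom.id ℂ) ![0, 0, 1] := by
      refine ringHom_ext (fun a => by simp [Dh, Irr.shR]) fun i => ?_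
      fin_cases i <;> simp [Dh, Irr.shR]
    exact congrArg (fun φ : MvPolynomial (Fin 3) ℂ →+* MvPolynomial (Fin 2) ℂ => φ F) this
  have h2 : Ex.sys (tri (d + 1)) (fun i => ![p i 0 / p i 2, p i 1 / p i 2]) μ ≤
      (fat p μ d).map Dh.toLinearMap := by
    intro G hG
    obtain ⟨hG1, hG2⟩ := Ex.mem_sys.1 hG
    have h3 := Irr.hom3_homog 0 0 d G fun s hs => Nat.lt_succ_iff.1 (hG1 s hs)
    refine ⟨Irr.hom3 0 0 d G, mem_fat.2 ⟨h3, fun i => ?_⟩, (hD _).trans (Irr.shR_hom3 0 0 d G)⟩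
    rw [← pt_eq_fa (hp.1 i)]
    refine Irr.mem_of_van _ _ _ d _ h3 fun s hs => ?_
    have h4 : (Irr.tr (p i 0 / p i 2) (p i 1 / p i 2)).comp (Irr.shR (RingHom.id ℂ) ![0, 0, 1]) =
        Irr.shR (RingHom.id ℂ) ![p i 0 / p i 2, p i 1 / p i 2, 1] := by
      refine ringHom_ext (fun a => by simp [Irr.shR, Irr.tr]) fun j => ?_
      fin_cases j <;> simp [Irr.shR, Irr.tr]
    rw [← h4, RingHom.comp_apply, Irr.shR_hom3]
    have h5 := pow_map_mem (Irr.tr (p i 0 / p i 2) (p i 1 / p i 2)) _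
      (idealOfVars (Fin 2) ℂ) (fun a ha => by
        rw [mem_vars_iff]
        have h6 : (eval 0).comp (Irr.tr (p i 0 / p i 2) (p i 1 / p i 2)) =
            eval ![p i 0 / p i 2, p i 1 / p i 2] := by
          refine ringHom_ext (fun a => by simp [Irr.tr]) fun j => ?_
          fin_cases j <;> simp [Irr.tr]
        exact (congrArg (fun φ : MvPolynomial (Fin 2) ℂ →+* ℂ => φ a) h6).trans ha) _ G (hG2 i)
    rw [mem_pow_idealOfVars_iff'] at h5
    exact h5 s (by rwa [Irr.deg_two])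
  exact ((Submodule.finrank_mono h2).trans (Submodule.finrank_map_le _ _)).trans (h1 ▸ h)

end Pool.Agent.P.MP_8707bd_ag.Small
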