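import Pool.Agent.P.MP_8707bd_ag.Small.Nine

/-!
From the numerical statement to the statement about curves (helper file only).
-/

namespace Pool.Agent.P.MP_8707bd_ag.Small

open MvPolynomial Module All Win

variable {r : ℕ}

theorem two_choose (a : ℕ) : 2 * (((a + 1).choose 2 : ℕ) : ℤ) = a * (a + 1) := by
  induction a with
  | zero => simp
  | succ a ih =>
    rw [Nat.choose_succ_succ' (a + 1) 1, Nat.choose_one_right]
    push_cast at ih ⊢
    linarith

theorem chi2_unif (r m d : ℕ) : chi2 (cl d fun _ : Fin r => m) =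
    2 * (((d + 2).choose 2 : ℕ) : ℤ) - 2 * ((r * (m + 1).choose 2 : ℕ) : ℤ) := by
  have h1 := two_choose (d + 1)
  have h2 := two_choose m
  simp only [chi2, cl, Finset.sum_const, Finset.card_univ, Fintype.card_fin, nsmul_eq_mul]
  push_cast at h1 h2 ⊢
  linear_combination (-1 : ℤ) * h1 + (r : ℤ) * h2

/-- If the square of an exceptional curve divides all members of a nonempty system, then the
system is special. -/
theorem special_of_sq {B : ℕ} {p : Fin r → Fin 3 → ℂ} (hp : Gen B p) {D : Cl r} (hB : D.1 ≤ B)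
    {F : MvPolynomial (Fin 3) ℂ} {e : ℕ} {n : Fin r → ℕ} (hF : Exact p F e n)
    (hi : Irreducible F) (h1 : dot (cl e n) (cl e n) = -1) (h2 : kk (cl e n) = 1)
    (hD : 0 < hh D) (hall : ∀ G ∈ fz p D, F ^ 2 ∣ G) : chi2 D < 2 * (hh D : ℤ) := by
  have he : (0 : ℤ) ≤ (cl e n).1 := Int.natCast_nonneg e
  have a1 := hF.rank_le_two hall
  rw [hp.2 D hB, hp.2 _ (by simp only [Prod.fst_sub]; omega)] at a1
  have a2 := (nonneg_of_pos (hD.trans_le a1)).1
  simp only [Prod.fst_sub] at a2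
  have a3 := hp.2 (cl e n) (by omega)
  have a4 : 0 < hh (cl e n) := by
    rw [← a3]
    exact Nat.pos_of_ne_zero fun h => hF.1 (by
      simpa [Submodule.finrank_eq_zero.1 h] using hF.mem)
  have a5 := hh_sub_le a4 D
  have a6 := hh_sub_le a4 (D - cl e n)
  have hs : Str (cl e n) := by
    by_cases hr : r ≤ 2
    · exact exc_two hr h1 h2
    · obtain ⟨w, i, hw, hwi⟩ := exists_good_EE (by omega) hF hi a3 h1 h2
      exact hw.str (hwi ▸ str_EE i)
  have a7 : dot D (cl e n) ≤ -2 := by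
    by_contra h
    have := hs D (by omega) (hD.trans_le a1)
    omega
  have a8 := chi2_le (D := D - cl e n) (by simp only [Prod.fst_sub]; omega)
  rw [chi2_eq, dot_sub, dot_comm D, dot_comm (cl e n), dot_sub, dot_sub, kk_sub,
    dot_comm (cl e n) D] at a8
  rw [chi2_eq]
  omega

/-- The statement of the conjecture for `r` points of multiplicity `m` in degree `d`. -/
def Body (r m d : ℕ) : Prop :=
  ∃ Φ : MvPolynomial (Fin r × Fin 3) ℂ, Φ ≠ 0 ∧ ∀ p : Fin r → Fin 3 → ℂ,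
    eval (fun ij : Fin r × Fin 3 => p ij.1 ij.2) Φ ≠ 0 →
    (finrank ℂ (fat p (fun _ => m) d) ≠ (d + 2).choose 2 - r * (m + 1).choose 2 ↔
      ((∃ G : MvPolynomial (Fin 3) ℂ, G ≠ 0 ∧ G.IsHomogeneous d ∧ ∀ i, G ∈ ptIdeal (p i) ^ m) ∧
        ∃ F : MvPolynomial (Fin 3) ℂ, ∃ e : ℕ, Irreducible F ∧ F.IsHomogeneous e ∧
          (∃ n : Fin r → ℕ,
            (∀ i, F ∈ ptIdeal (p i) ^ (n i) ∧ F ∉ ptIdeal (p i) ^ (n i + 1)) ∧
            (e : ℤ) ^ 2 - ∑ i : Fin r, ((n i : ℕ) : ℤ) ^ 2 = -1 ∧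
            -3 * (e : ℤ) + ∑ i : Fin r, ((n i : ℕ) : ℤ) = -1) ∧
          ∃ s : ℕ, 1 < s ∧ ∀ G : MvPolynomial (Fin 3) ℂ, G.IsHomogeneous d →
            (∀ i, G ∈ ptIdeal (p i) ^ m) → F ^ s ∣ G))

theorem body_of_num {m d : ℕ} (H : Num (cl d fun _ : Fin r => m)) : Body r m d := by
  have hc := chi2_unif r m d
  have hl := chi2_le (D := cl d fun _ : Fin r => m) (Int.natCast_nonneg d)
  obtain ⟨B, hB, hB'⟩ : ∃ B, d ≤ B ∧ (hh (cl d fun _ : Fin r => m) = 0 ∨
      2 * (hh (cl d fun _ : Fin r => m) : ℤ) ≤ chi2 (cl d fun _ : Fin r => m) ∨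
      ∃ (e : ℕ) (n : Fin r → ℕ), e ≤ B ∧ 1 ≤ e ∧ Ind (cl e n) ∧ dot (cl e n) (cl e n) = -1 ∧
        kk (cl e n) = 1 ∧ hh (cl d fun _ : Fin r => m) ≤
          hh (cl d (fun _ : Fin r => m) - cl e n - cl e n)) := by
    rcases H with H | H | ⟨e, n, H⟩
    · exact ⟨d, le_rfl, Or.inl H⟩
    · exact ⟨d, le_rfl, Or.inr (Or.inl H)⟩
    · exact ⟨d + e, by omega, Or.inr (Or.inr ⟨e, n, by omega, H⟩)⟩
  obtain ⟨Φ, h0, hΦ⟩ := exists_gen r B
  refine ⟨Φ, h0, fun p hp => ?_⟩
  have hg := hΦ p hp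
  have hdB : (cl d fun _ : Fin r => m).1 ≤ B := Int.ofNat_le.2 hB
  have hrk := hg.2 _ hdB
  have hm : ∀ G : MvPolynomial (Fin 3) ℂ, G ∈ fz p (cl d fun _ => m) ↔
      G.IsHomogeneous d ∧ ∀ i, G ∈ ptIdeal (p i) ^ m := fun G => by
    rw [← fat_eq_fz hg.1, mem_fat]
  rw [fat_eq_fz hg.1, hrk]
  constructor
  · intro hne
    have hpos : 0 < hh (cl d fun _ : Fin r => m) := by omega
    obtain ⟨G, hG, hG0⟩ := exists_ne_zero p hpos
    refine ⟨⟨G, hG0, (hm G).1 hG⟩, ?_⟩
    rcases hB' with H | H | ⟨e, n, heB, he, hi, h1, h2, h3⟩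
    · omega
    · omega
    obtain ⟨F, hF, hirr⟩ := hi.exists_irreducible he heB hg
    refine ⟨F, e, hirr, hF.2.1, ⟨n, fun i => ?_, ?_, ?_⟩, 2, one_lt_two, fun G a b => ?_⟩
    · rw [pt_iff_mx (hg.1 i) hF.2.1, pt_iff_mx (hg.1 i) hF.2.1]
      exact hF.2.2 i
    · simpa only [dot, cl, sq] using h1
    · simp only [kk, cl] at h2
      linarith
    · obtain ⟨H, -, rfl⟩ := exists_mul_of_rank (D := cl d fun _ => m) (mul_ne_zero hF.1 hF.1)
        (fz_mul hF.mem hF.mem) (by rw [hrk, ← sub_sub]; exact h3.trans (hh_le p _)) G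
        ((hm G).2 ⟨a, b⟩)
      exact ⟨H, by rw [sq]⟩
  · rintro ⟨⟨G, hG0, hG⟩, F, e, hirr, hF, ⟨n, hn, h1, h2⟩, s, hs, hall⟩
    have hpos : 0 < hh (cl d fun _ : Fin r => m) := by
      rw [← hrk]
      exact Nat.pos_of_ne_zero fun h => hG0 (by
        simpa [Submodule.finrank_eq_zero.1 h] using (hm G).2 hG)
    have := special_of_sq hg hdB (F := F) (e := e) (n := n)
      ⟨hirr.ne_zero, hF, fun i => by
        rw [← pt_iff_mx (hg.1 i) hF, ← pt_iff_mx (hg.1 i) hF]; exact hn i⟩ hirr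
      (by simpa only [dot, cl, sq] using h1) (by simp only [kk, cl]; linarith) hpos
      fun G hG => (pow_dvd_pow F hs).trans (hall G ((hm G).1 hG).1 ((hm G).1 hG).2)
    omega

theorem body_small (hr : r ≤ 9) (m d : ℕ) : Body r m d := body_of_num (num_small hr m d)

theorem body_of_ke {m d : ℕ}
    (h : KE (tri (d + 1)) (fun _ : Fin r => m) ((d + 2).choose 2 - r * (m + 1).choose 2)) :
    Body r m d := by
  have h1 := hh_le_of_ke h
  have hc := chi2_unif r m d
  refine body_of_num ?_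
  by_cases h0 : hh (cl d fun _ : Fin r => m) = 0
  · exact Or.inl h0
  · exact Or.inr (Or.inl (by omega))

/-- The conjecture follows from the maximal rank statement for at least ten points. -/
theorem body_all (H : ∀ r m d : ℕ, 10 ≤ r → 1 ≤ m →
    KE (tri (d + 1)) (fun _ : Fin r => m) ((d + 2).choose 2 - r * (m + 1).choose 2))
    (r m d : ℕ) : Body r m d := by
  by_cases hr : r ≤ 9
  · exact body_small hr m d
  rcases Nat.eq_zero_or_pos m with rfl | hm
  · refine body_of_num (Or.inr (Or.inl ?_))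
    have h1 := hh_std (k := 0) (b := 0) (r := 0) (D := cl d fun _ => 0) (by omega) le_rfl
      (fun i => i.elim0) (fun i => i.elim0) (by simp [cl])
    have h2 : hh (cl d fun _ : Fin r => 0) = hh (cl d fun _ : Fin 0 => 0) := by
      rw [← hh_pad (f := Fin.elim0) (s := r) (fun i => i.elim0)]
      refine congrArg hh (Prod.ext rfl (funext fun i => ?_))
      simp only [pad, cl]
      rw [Function.extend_apply' _ _ _ fun h => h.choose.elim0]
      rfl
    rw [chi2_unif] at h1 ⊢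
    simpa [h2] using h1
  · exact body_of_ke (H r m d (by omega) hm)

end Pool.Agent.P.MP_8707bd_ag.Small
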