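import Pool.Agent.P.MP_8707bd_ag.Small.Fa

/-!
The quadratic transformation (helper file only).
-/

namespace Pool.Agent.P.MP_8707bd_ag.Small

open MvPolynomial Module All

variable {r : ℕ}

theorem rank_le_crem {U V : Submodule ℂ (MvPolynomial (Fin 3) ℂ)} [Module.Finite ℂ V]
    (f : MvPolynomial (Fin 3) ℂ →ₗ[ℂ] MvPolynomial (Fin 3) ℂ) (h : ∀ G ∈ U, f G ∈ V)
    (hf : ∀ G ∈ U, f G = 0 → G = 0) : finrank ℂ U ≤ finrank ℂ V :=
  LinearMap.finrank_le_finrank_of_injective (f := f.restrict h)
    ((injective_iff_map_eq_zero _).2 fun G hG =>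
      Subtype.ext (hf G G.2 (congrArg Subtype.val hG)))

/-- The linear substitution of a matrix. -/
noncomputable def lin_crem (g : Matrix (Fin 3) (Fin 3) ℂ) :
    MvPolynomial (Fin 3) ℂ →ₐ[ℂ] MvPolynomial (Fin 3) ℂ :=
  aeval fun a => ∑ b, C (g a b) * X b

theorem lin_lin_crem (g g' : Matrix (Fin 3) (Fin 3) ℂ) (F : MvPolynomial (Fin 3) ℂ) :
    lin_crem g' (lin_crem g F) = lin_crem (g * g') F := by
  have : (lin_crem g').comp (lin_crem g) = lin_crem (g * g') := by
    ext1 a
    simp only [lin_crem, AlgHom.comp_apply, aeval_X, Fin.sum_univ_three, map_add, map_mul,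
      aeval_C, algebraMap_eq, Matrix.mul_apply]
    ring
  exact congrArg (fun f : MvPolynomial (Fin 3) ℂ →ₐ[ℂ] MvPolynomial (Fin 3) ℂ => f F) this

theorem lin_one_crem (F : MvPolynomial (Fin 3) ℂ) : lin_crem 1 F = F := by
  have : lin_crem 1 = AlgHom.id ℂ _ := by
    ext1 a
    simp [lin_crem, Matrix.one_apply, apply_ite (C : ℂ → MvPolynomial (Fin 3) ℂ)]
  rw [this]; rfl

theorem eval_aeval_crem (f : Fin 3 → MvPolynomial (Fin 3) ℂ) (q : Fin 3 → ℂ)
    (F : MvPolynomial (Fin 3) ℂ) : eval q (aeval f F) = eval (fun a => eval q (f a)) F := by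
  have : (eval q).comp (aeval f : MvPolynomial (Fin 3) ℂ →ₐ[ℂ] MvPolynomial (Fin 3) ℂ).toRingHom =
      eval (fun a => eval q (f a)) := by
    ext1
    · ext c; simp
    · simp
  exact congrArg (fun f : MvPolynomial (Fin 3) ℂ →+* ℂ => f F) this

theorem aeval_mem_crem (f : Fin 3 → MvPolynomial (Fin 3) ℂ) {q q' : Fin 3 → ℂ}
    (h : q' = fun a => eval q (f a)) {n : ℕ} {F : MvPolynomial (Fin 3) ℂ} (hF : F ∈ mx q' ^ n) :
    aeval f F ∈ mx q ^ n :=
  pow_map_mem (aeval f : MvPolynomial (Fin 3) ℂ →ₐ[ℂ] MvPolynomial (Fin 3) ℂ).toRingHom _ _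
    (fun G hG => by
      change eval q (aeval f G) = 0
      rw [eval_aeval_crem, ← h]
      exact hG) n F hF

theorem rank_mulVec_le_crem (g : Matrix (Fin 3) (Fin 3) ℂ) (hg : g.det ≠ 0)
    (q : Fin r → Fin 3 → ℂ) (D : Cl r) :
    finrank ℂ (fz (fun i => g.mulVec (q i)) D) ≤ finrank ℂ (fz q D) := by
  refine rank_le_crem (lin_crem g).toLinearMap (fun G hG => ?_) fun G _ hG => ?_
  · rcases mem_fz.1 hG with rfl | hG
    · rw [map_zero]; exact zero_mem _
    refine mem_fz.2 (Or.inr ⟨hG.1, ?_, fun i => aeval_mem_crem _ ?_ (hG.2.2 i)⟩)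
    · have := hG.2.1.aeval (fun a => ∑ b, C (g a b) * X b : Fin 3 → MvPolynomial (Fin 3) ℂ)
        (n := 1) fun a => IsHomogeneous.sum _ _ _ fun b _ => isHomogeneous_C_mul_X _ _
      rwa [one_mul] at this
    · funext a
      simp [Matrix.mulVec, dotProduct]
  · have := lin_lin_crem g g⁻¹ G
    rw [Matrix.mul_nonsing_inv _ (Ne.isUnit hg), lin_one_crem] at this
    rw [← this]
    change lin_crem g G = 0 at hG
    rw [hG, map_zero]

/-- Linear changes of coordinates. Sketch: the substitution `X a ↦ ∑ b, C (g a b) * X b` is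
injective, keeps the degree and maps `mx (g.mulVec q)` into `mx q` (`pow_map_mem`). -/
theorem rank_mulVec (g : Matrix (Fin 3) (Fin 3) ℂ) (hg : g.det ≠ 0) (q : Fin r → Fin 3 → ℂ)
    (D : Cl r) : finrank ℂ (fz (fun i => g.mulVec (q i)) D) = finrank ℂ (fz q D) := by
  refine le_antisymm (rank_mulVec_le_crem g hg q D) ?_
  have := rank_mulVec_le_crem g⁻¹ (Matrix.isUnit_nonsing_inv_det _ (Ne.isUnit hg)).ne_zero
    (fun i => g.mulVec (q i)) D
  have e : (fun i => g⁻¹.mulVec (g.mulVec (q i))) = q := funext fun i => by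
    rw [Matrix.mulVec_mulVec, Matrix.nonsing_inv_mul _ (Ne.isUnit hg), Matrix.one_mulVec]
  rwa [e] at this

theorem monomial_three_crem (s : Fin 3 →₀ ℕ) (c : ℂ) :
    (monomial s c : MvPolynomial (Fin 3) ℂ) = C c * (X 0 ^ s 0 * X 1 ^ s 1 * X 2 ^ s 2) := by
  rw [monomial_eq, Finsupp.prod_fintype _ _ fun _ => pow_zero _, Fin.prod_univ_three]

theorem deg_crem {F : MvPolynomial (Fin 3) ℂ} {d : ℕ} (hF : F.IsHomogeneous d) {s : Fin 3 →₀ ℕ}
    (hs : s ∈ F.support) : s 0 + s 1 + s 2 = d := by
  rw [← degree_three, Finsupp.degree_eq_weight_one]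
  exact hF (mem_support_iff.1 hs)

theorem coeff_sum_crem {F : MvPolynomial (Fin 3) ℂ} (e : (Fin 3 →₀ ℕ) → Fin 3 →₀ ℕ)
    (he : ∀ s ∈ F.support, ∀ s' ∈ F.support, e s = e s' → s = s') {s : Fin 3 →₀ ℕ}
    (hs : s ∈ F.support) :
    coeff (e s) (∑ u ∈ F.support, monomial (e u) (coeff u F) : MvPolynomial (Fin 3) ℂ) =
      coeff s F := by
  rw [coeff_sum, Finset.sum_eq_single s, coeff_monomial, if_pos rfl]
  · intro u hu hne
    rw [coeff_monomial, if_neg fun h => hne (he u hu s hs h)]
  · exact fun h => absurd hs h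

/-- Multiplicity at a coordinate point. -/
theorem mem_mx_single {F : MvPolynomial (Fin 3) ℂ} {d : ℕ} (hF : F.IsHomogeneous d) (a : Fin 3)
    (k : ℕ) : F ∈ mx (Pi.single a 1) ^ k ↔ ∀ s ∈ F.support, s a + k ≤ d := by
  have hdeg : ∀ s ∈ F.support, (s.erase a).degree + s a = d := fun s hs => by
    have h := deg_crem hF hs
    rw [← degree_three, ← Finsupp.erase_add_single a s, map_add, Finsupp.degree_single] at h
    exact h
  constructor
  · intro h s hs
    let f : Fin 3 → MvPolynomial (Fin 3) ℂ := fun b => if b = a then 1 else X b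
    have h1 : aeval f F ∈ mx 0 ^ k := aeval_mem_crem f (by
      funext b
      by_cases hb : b = a <;> simp [f, hb]) h
    have h2 : aeval f F = ∑ u ∈ F.support, monomial (u.erase a) (coeff u F) := by
      conv_lhs => rw [F.as_sum, map_sum]
      refine Finset.sum_congr rfl fun u _ => ?_
      rw [monomial_three_crem, monomial_three_crem]
      fin_cases a <;> simp [f]
    have h3 := (van_iff 0 k _).1 h1 (s.erase a)
    rw [tr_zero, h2, coeff_sum_crem (fun u => u.erase a) (fun u hu u' hu' e => ?_) hs] at h3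
    · have h4 := hdeg s hs
      by_contra hlt
      exact mem_support_iff.1 hs (h3 (by omega))
    · have h4 := hdeg u hu
      have h5 := hdeg u' hu'
      rw [← Finsupp.erase_add_single a u, ← Finsupp.erase_add_single a u', e]
      rw [e] at h4
      congr 2
      omega
  · intro h
    rw [F.as_sum]
    refine sum_mem fun s hs => ?_
    have h1 := h s hs
    have h2 := deg_crem hF hs
    have hX : ∀ b, b ≠ a → ∀ n, (X b ^ n : MvPolynomial (Fin 3) ℂ) ∈ mx (Pi.single a 1) ^ n :=
      fun b hb n => Ideal.pow_mem_pow (by simp [RingHom.mem_ker, hb]) n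
    have h3 : ∀ b c, b ≠ a → c ≠ a → k ≤ s b + s c → ∀ G : MvPolynomial (Fin 3) ℂ,
        G * (X b ^ s b * X c ^ s c) ∈ mx (Pi.single a 1) ^ k := fun b c hb hc hk G =>
      Ideal.mul_mem_left _ _ (Ideal.pow_le_pow_right hk (by
        rw [pow_add]; exact Ideal.mul_mem_mul (hX b hb _) (hX c hc _)))
    rw [monomial_three_crem]
    fin_cases a
    · convert h3 1 2 (by decide) (by decide) (by simp at h1; omega)
        (C (coeff s F) * X 0 ^ s 0) using 1
      ring
    · convert h3 0 2 (by decide) (by decide) (by simp at h1; omega)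
        (C (coeff s F) * X 1 ^ s 1) using 1
      ring
    · convert h3 0 1 (by decide) (by decide) (by simp at h1; omega)
        (C (coeff s F) * X 2 ^ s 2) using 1
      ring

/-- The standard quadratic transformation. Sketch: put `D' = refl T D`, `A a = D.1 - D.2 (t a)`.
A monomial `s` of `G ∈ fz q' D'` has `s a ≤ D'.1 - D'.2 (t a) = A a`; send it to `A - s`. The
resulting form `τ G` has degree `D.1` and satisfies
`(X 0 * X 1 * X 2) ^ D'.1 * τ G = monomial A 1 * σ G` for the substitution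
`σ = aeval ![X 1 * X 2, X 0 * X 2, X 0 * X 1]`, which maps `mx (q' l)` into `mx (q l)`;
finish with `mx_div` for `n = 0`. -/
theorem rank_std (t : Fin 3 → Fin r) (ht : Function.Injective t) (q q' : Fin r → Fin 3 → ℂ)
    (h1 : ∀ a, q (t a) = Pi.single a 1) (h1' : ∀ a, q' (t a) = Pi.single a 1)
    (h2 : ∀ l, l ∉ Set.range t → (∀ a, q l a ≠ 0) ∧
      q' l = ![q l 1 * q l 2, q l 0 * q l 2, q l 0 * q l 1]) (D : Cl r) :
    finrank ℂ (fz q' (refl (Finset.univ.image t) D)) ≤ finrank ℂ (fz q D) := by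
  classical
  set D' := refl (Finset.univ.image t) D with hD'
  have e1 : D'.1 = 2 * D.1 - (D.2 (t 0) + D.2 (t 1) + D.2 (t 2)) := by
    simp only [hD', refl]
    rw [Finset.sum_image fun a _ b _ h => ht h, Fin.sum_univ_three]
    ring
  have e2 : ∀ a, D'.2 (t a) = D.2 (t a) + (D'.1 - D.1) := fun a => by
    simp only [hD', refl]
    rw [if_pos (Finset.mem_image_of_mem t (Finset.mem_univ a))]
    ring
  have e3 : ∀ l, l ∉ Set.range t → D'.2 l = D.2 l := fun l hl => by
    simp only [hD', refl]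
    rw [if_neg (by simpa using hl), add_zero]
  clear_value D'
  let A : Fin 3 →₀ ℕ := Finsupp.equivFunOnFinite.symm fun a => (D.1 - D.2 (t a)).toNat
  have hA : ∀ a, A a = (D.1 - D.2 (t a)).toNat := fun _ => rfl
  let f : Fin 3 → MvPolynomial (Fin 3) ℂ := ![X 1 * X 2, X 0 * X 2, X 0 * X 1]
  let Z : MvPolynomial (Fin 3) ℂ := (X 0 * X 1 * X 2) ^ D'.1.toNat
  have hZ : Z ≠ 0 := pow_ne_zero _ (mul_ne_zero (mul_ne_zero (X_ne_zero _) (X_ne_zero _))
    (X_ne_zero _))
  have key : ∀ G ∈ fz q' D', ∃ H ∈ fz q D, Z * H = monomial A 1 * aeval f G ∧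
      (H = 0 → G = 0) := by
    intro G hG
    by_cases h0 : G = 0
    · exact ⟨0, zero_mem _, by simp [h0], fun _ => h0⟩
    obtain ⟨g1, g2, g3⟩ := (mem_fz.1 hG).resolve_left h0
    have s1 : ∀ s ∈ G.support, ∀ a, (s a : ℤ) ≤ D.1 - D.2 (t a) := fun s hs a => by
      have h3 := g3 (t a)
      rw [h1' a, mem_mx_single g2] at h3
      have h4 := h3 s hs
      have h5 := e2 a
      omega
    have s2 : ∀ s ∈ G.support, s ≤ A := fun s hs a => by
      have := s1 s hs a
      rw [hA]
      omega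
    have s3 : ∀ s ∈ G.support, ((A - s).degree : ℤ) = D.1 := fun s hs => by
      have h3 := deg_crem g2 hs
      have h4 := s1 s hs 0
      have h5 := s1 s hs 1
      have h6 := s1 s hs 2
      rw [degree_three]
      simp only [Finsupp.coe_tsub, Pi.sub_apply, hA]
      omega
    have hom : (∑ u ∈ G.support, monomial (A - u) (coeff u G) :
        MvPolynomial (Fin 3) ℂ).IsHomogeneous D.1.toNat :=
      IsHomogeneous.sum _ _ _ fun s hs => isHomogeneous_monomial _ (by
        have := s3 s hs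
        omega)
    have eq : Z * ∑ u ∈ G.support, monomial (A - u) (coeff u G) = monomial A 1 * aeval f G := by
      conv_rhs => rw [G.as_sum, map_sum, Finset.mul_sum]
      rw [Finset.mul_sum]
      refine Finset.sum_congr rfl fun s hs => ?_
      have h3 : (monomial A 1 : MvPolynomial (Fin 3) ℂ) = monomial (A - s) 1 * monomial s 1 := by
        rw [monomial_mul, tsub_add_cancel_of_le (s2 s hs), one_mul]
      rw [h3, ← mul_one (coeff s G), ← C_mul_monomial, ← C_mul_monomial, monomial_three_crem s]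
      simp only [Z, ← deg_crem g2 hs, f, map_mul, map_pow, aeval_X, aeval_C, algebraMap_eq,
        Matrix.cons_val, map_one]
      ring
    refine ⟨_, mem_fz.2 (Or.inr ⟨?_, hom, fun l => ?_⟩), eq, fun h => ?_⟩
    · obtain ⟨s, hs⟩ := support_nonempty.2 h0
      have := s3 s hs
      omega
    · by_cases hl : l ∈ Set.range t
      · obtain ⟨a, rfl⟩ := hl
        rw [h1 a, mem_mx_single hom]
        intro u hu
        obtain ⟨s, hs, hu⟩ := Finset.mem_biUnion.1 (support_sum hu)
        obtain rfl := Finset.mem_singleton.1 (support_monomial_subset hu)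
        have h3 := s3 s hs
        have h4 := s1 s hs a
        have h5 := Finsupp.le_degree a (A - s)
        simp only [Finsupp.coe_tsub, Pi.sub_apply, hA] at h5 ⊢
        omega
      · have h3 := g3 l
        rw [e3 l hl] at h3
        have h4 := aeval_mem_crem f (q := q l) (by
          rw [(h2 l hl).2]
          funext a
          fin_cases a <;> simp [f]) h3
        refine mx_div (q l) (F := Z) (n := 0) ?_ (eq ▸ Ideal.mul_mem_left _ _ h4)
        have h5 := (h2 l hl).1
        simp [Z, RingHom.mem_ker, h5]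
    · by_contra h0
      obtain ⟨s, hs⟩ := support_nonempty.2 h0
      have := coeff_sum_crem (fun u => A - u) (fun u hu u' hu' e =>
        tsub_inj_right (s2 u hu) (s2 u' hu') e) hs
      rw [h, coeff_zero] at this
      exact mem_support_iff.1 hs this.symm
  refine le_trans (rank_le_crem (V := (fz q D).map (LinearMap.mulLeft ℂ Z))
    (LinearMap.mulLeft ℂ (monomial A 1) ∘ₗ (aeval f).toLinearMap) (fun G hG => ?_)
    fun G hG h => ?_) (Submodule.finrank_map_le _ _)
  · obtain ⟨H, hH, e, -⟩ := key G hG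
    exact ⟨H, hH, e⟩
  · obtain ⟨H, -, e, h0⟩ := key G hG
    exact h0 ((mul_eq_zero.1 (e.trans h)).resolve_left hZ)

theorem refl_refl {T : Finset (Fin r)} (hT : T.card = 3) (D : Cl r) : refl T (refl T D) = D := by
  have h : ∑ i ∈ T, (refl T D).2 i = ∑ i ∈ T, D.2 i + 3 * (D.1 - ∑ i ∈ T, D.2 i) := by
    simp only [refl]
    rw [Finset.sum_add_distrib, Finset.sum_congr rfl fun i hi => if_pos hi, Finset.sum_const, hT]
    simp
  refine Prod.ext ?_ (funext fun i => ?_)
  · change (refl T D).1 + ((refl T D).1 - ∑ i ∈ T, (refl T D).2 i) = _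
    rw [h]
    simp only [refl]
    ring
  · change (refl T D).2 i + (if i ∈ T then (refl T D).1 - ∑ i ∈ T, (refl T D).2 i else 0) = _
    rw [h]
    simp only [refl]
    split_ifs <;> ring

theorem hh_refl_le_crem {T : Finset (Fin r)} (hT : T.card = 3) (D : Cl r) :
    hh (refl T D) ≤ hh D := by
  classical
  let t : Fin 3 → Fin r := T.orderEmbOfFin hT
  have ht : Function.Injective t := (T.orderEmbOfFin hT).injective
  have hT' : Finset.univ.image t = T := Finset.image_orderEmbOfFin_univ T hT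
  obtain ⟨Φ, h0, hΦ⟩ := hh_generic D
  let M : (Fin r → Fin 3 → ℂ) → Matrix (Fin 3) (Fin 3) ℂ := fun p => Matrix.of fun a b => p (t b) a
  let N : Matrix (Fin 3) (Fin 3) (MvPolynomial (Fin r × Fin 3) ℂ) :=
    Matrix.of fun a b => X (t b, a)
  let Ψ : MvPolynomial (Fin r × Fin 3) ℂ := N.det *
    ∏ l ∈ Finset.univ.filter (· ∉ Set.range t), ∏ a, N.adjugate.mulVec (fun b => X (l, b)) a
  have hΨ : ∀ p : Fin r → Fin 3 → ℂ, eval (fun ij : Fin r × Fin 3 => p ij.1 ij.2) Ψ = (M p).det *
      ∏ l ∈ Finset.univ.filter (· ∉ Set.range t), ∏ a, (M p).adjugate.mulVec (p l) a := by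
    intro p
    have hN : (eval fun ij : Fin r × Fin 3 => p ij.1 ij.2).mapMatrix N = M p := by
      ext a b
      simp [N, M]
    simp only [Ψ, map_mul, map_prod, RingHom.map_det, hN]
    congr 1
    refine Finset.prod_congr rfl fun l _ => Finset.prod_congr rfl fun a _ => ?_
    rw [RingHom.map_mulVec, ← RingHom.mapMatrix_apply, RingHom.map_adjugate, hN]
    congr 1
    funext b
    simp
  have hΨ0 : Ψ ≠ 0 := fun e => by
    have h := hΨ (Function.extend t (fun b => Pi.single b 1) fun _ _ => 1)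
    have hM : M (Function.extend t (fun b => Pi.single b 1) fun _ _ => 1) = 1 := by
      ext a b
      simp [M, ht.extend_apply, Matrix.one_apply, Pi.single_apply]
    rw [e, map_zero, hM, Matrix.det_one, Matrix.adjugate_one, one_mul,
      Finset.prod_eq_one fun l hl => Finset.prod_eq_one fun a _ => ?_] at h
    · exact zero_ne_one h
    · rw [Matrix.one_mulVec, Function.extend_apply' _ _ _ (Finset.mem_filter.1 hl).2]
  obtain ⟨x, hx⟩ : ∃ x, eval x (Φ * Ψ) ≠ 0 := by
    by_contra h
    push Not at h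
    exact mul_ne_zero h0 hΨ0 (MvPolynomial.funext fun x => by rw [h x, map_zero])
  let p : Fin r → Fin 3 → ℂ := fun i a => x (i, a)
  have hx' : x = fun ij : Fin r × Fin 3 => p ij.1 ij.2 := rfl
  rw [hx', map_mul, hΨ] at hx
  have h1 := hΦ p (left_ne_zero_of_mul hx)
  have h2 := left_ne_zero_of_mul (right_ne_zero_of_mul hx)
  have h3 := right_ne_zero_of_mul (right_ne_zero_of_mul hx)
  let q : Fin r → Fin 3 → ℂ := fun l => (M p)⁻¹.mulVec (p l)
  let q' : Fin r → Fin 3 → ℂ := Function.extend t (fun b => Pi.single b 1)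
    fun l => ![q l 1 * q l 2, q l 0 * q l 2, q l 0 * q l 1]
  have h4 := rank_std t ht q q' (fun a => ?_) (fun a => ht.extend_apply _ _ _)
    (fun l hl => ⟨fun a => ?_, Function.extend_apply' _ _ _ hl⟩) D
  · rw [hT', rank_mulVec _ (Matrix.isUnit_nonsing_inv_det _ (Ne.isUnit h2)).ne_zero, h1] at h4
    exact (hh_le q' _).trans h4
  · have : p (t a) = (M p).mulVec (Pi.single a 1) := by
      funext b
      simp [M]
    simp only [q]
    rw [this, Matrix.mulVec_mulVec, Matrix.nonsing_inv_mul _ (Ne.isUnit h2), Matrix.one_mulVec]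
  · have h5 := Finset.prod_ne_zero_iff.1 (Finset.prod_ne_zero_iff.1 h3 l
      (Finset.mem_filter.2 ⟨Finset.mem_univ _, hl⟩)) a (Finset.mem_univ _)
    simp only [q]
    rw [Matrix.inv_def, Matrix.smul_mulVec, Pi.smul_apply, smul_eq_mul, Ring.inverse_eq_inv']
    exact mul_ne_zero (inv_ne_zero h2) h5

/-- Sketch: it suffices to prove `≤`. With `Φ` from `hh_generic D` choose an invertible `g` and `q`
as in `rank_std` such that `Φ` does not vanish at `g.mulVec (q i)`: first take `p` with
`Φ p * det (p (t a) b) ≠ 0`, let the columns of `g` be the `p (t a)`; then move the other points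
(a nonzero polynomial times the product of the coordinates is nonzero). -/
theorem hh_refl {T : Finset (Fin r)} (hT : T.card = 3) (D : Cl r) : hh (refl T D) = hh D := by
  refine le_antisymm (hh_refl_le_crem hT D) ?_
  have := hh_refl_le_crem hT (refl T D)
  rwa [refl_refl hT] at this

end Pool.Agent.P.MP_8707bd_ag.Small
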