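import Pool.Agent.P.MP_8707bd_ag.Small.Fa
import Pool.Agent.P.MP_8707bd_ag.Ex.Semi

/-!
Raising the multiplicity at a general point lowers the dimension (helper file only).
-/

namespace Pool.Agent.P.MP_8707bd_ag.Small

open MvPolynomial Module All

variable {r : ℕ}

theorem tr_pderiv_strict (q : Fin 3 → ℂ) (a : Fin 3) (G : MvPolynomial (Fin 3) ℂ) :
    tr q (pderiv a G) = pderiv a (tr q G) := by
  induction G using MvPolynomial.induction_on with
  | C c => simp [tr]
  | add F G hF hG => simp only [map_add, hF, hG]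
  | mul_X F k hF =>
    have hk : tr q (X k) = X k + C (q k) := by simp [tr]
    have hk' : tr q (pderiv a (X k)) = pderiv a (X k) := by
      rw [pderiv_X, Pi.single_apply]
      split_ifs <;> simp
    rw [pderiv_mul, map_add, map_mul, map_mul, map_mul, pderiv_mul, hF, hk, hk', map_add,
      pderiv_C, add_zero]

theorem pderiv_mem_strict {q : Fin 3 → ℂ} {G : MvPolynomial (Fin 3) ℂ} {n : ℕ}
    (hG : G ∈ mx q ^ (n + 1)) (a : Fin 3) : pderiv a G ∈ mx q ^ n := by
  rw [van_iff] at hG ⊢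
  intro s hs
  rw [tr_pderiv_strict, coeff_pderiv, hG _ (by rw [map_add, Finsupp.degree_single]; omega),
    zero_mul]

/-- Translation to a moving point. -/
noncomputable def mov_strict (q : Fin 3 → ℂ) (a : Fin 3) :
    MvPolynomial (Fin 3) ℂ →ₐ[ℂ] MvPolynomial (Fin 3) (Polynomial ℂ) :=
  aeval fun k => X k + C (Polynomial.C (q k) +
    Polynomial.C ((Pi.single a 1 : Fin 3 → ℂ) k) * Polynomial.X)

theorem mov_eval_strict (q : Fin 3 → ℂ) (a : Fin 3) (t : ℂ) (G : MvPolynomial (Fin 3) ℂ)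
    (s : Fin 3 →₀ ℕ) : ((mov_strict q a G).coeff s).eval t =
      (tr (q + t • (Pi.single a 1 : Fin 3 → ℂ)) G).coeff s := by
  have : (map (Polynomial.evalRingHom t)).comp
      (mov_strict q a : MvPolynomial (Fin 3) ℂ →+* MvPolynomial (Fin 3) (Polynomial ℂ)) =
      (tr (q + t • (Pi.single a 1 : Fin 3 → ℂ)) :
        MvPolynomial (Fin 3) ℂ →+* MvPolynomial (Fin 3) ℂ) := by
    refine MvPolynomial.ringHom_ext (fun r => ?_) fun k => ?_
    · simp [tr, mov_strict]
    · simp [tr, mov_strict, mul_comm t]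
  have h : map (Polynomial.evalRingHom t) (mov_strict q a G) =
      tr (q + t • (Pi.single a 1 : Fin 3 → ℂ)) G :=
    congrArg (fun f : MvPolynomial (Fin 3) ℂ →+* MvPolynomial (Fin 3) ℂ => f G) this
  rw [← h, coeff_map]
  rfl

theorem mov_zero_strict (q : Fin 3 → ℂ) (a : Fin 3) (G : MvPolynomial (Fin 3) ℂ)
    (s : Fin 3 →₀ ℕ) : ((mov_strict q a G).coeff s).coeff 0 = (tr q G).coeff s := by
  rw [Polynomial.coeff_zero_eq_eval_zero, mov_eval_strict, zero_smul, add_zero]

theorem mov_one_strict (q : Fin 3 → ℂ) (a : Fin 3) (G : MvPolynomial (Fin 3) ℂ)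
    (s : Fin 3 →₀ ℕ) : ((mov_strict q a G).coeff s).coeff 1 = (tr q (pderiv a G)).coeff s := by
  induction G using MvPolynomial.induction_on generalizing s with
  | C c =>
    have : mov_strict q a (C c) = C (Polynomial.C c) := by simp [mov_strict]
    rw [this, coeff_C]
    split_ifs <;> simp
  | add F G hF hG => simp only [map_add, coeff_add, Polynomial.coeff_add, hF, hG]
  | mul_X F k hF =>
    have hk : tr q (X k) = X k + C (q k) := by simp [tr]
    have hk' : tr q (pderiv a (X k)) = C ((Pi.single a 1 : Fin 3 → ℂ) k) := by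
      rw [pderiv_X, Pi.single_apply, Pi.single_apply]
      split_ifs <;> simp
    have hk'' : mov_strict q a (X k) = X k + C (Polynomial.C (q k) +
        Polynomial.C ((Pi.single a 1 : Fin 3 → ℂ) k) * Polynomial.X) := by simp [mov_strict]
    rw [pderiv_mul, map_add, map_mul, map_mul, map_mul, hk, hk', hk'', mul_add, mul_add,
      mul_comm _ (C _), mul_comm _ (C _), mul_comm _ (C _)]
    simp only [coeff_add, coeff_C_mul, coeff_mul_X', Polynomial.coeff_add, add_mul,
      Polynomial.coeff_C_mul, mul_assoc, hF]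
    rw [Polynomial.coeff_X_mul, mov_zero_strict, add_assoc]
    congr 1
    split_ifs
    · exact hF _
    · rfl

/-- Characteristic zero. Sketch: `van_iff`; translation commutes with `pderiv`; for `s` of degree
`n + 1` pick `a` with `s a ≠ 0` and use `coeff_pderiv`. -/
theorem mem_of_pderiv {q : Fin 3 → ℂ} {G : MvPolynomial (Fin 3) ℂ} {n : ℕ}
    (hG : G ∈ mx q ^ (n + 1)) (h : ∀ a, pderiv a G ∈ mx q ^ (n + 1)) : G ∈ mx q ^ (n + 2) := by
  rw [van_iff] at hG ⊢
  intro s hs
  by_cases h1 : s.degree < n + 1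
  · exact hG s h1
  obtain ⟨a, ha⟩ : ∃ a, s a ≠ 0 := by
    by_contra hc
    push Not at hc
    rw [(Finsupp.ext hc : s = 0)] at h1
    simp at h1
  have e : s = (s - Finsupp.single a 1) + Finsupp.single a 1 :=
    (tsub_add_cancel_of_le (Finsupp.single_le_iff.2 (Nat.one_le_iff_ne_zero.2 ha))).symm
  have h2 := (van_iff q (n + 1) _).1 (h a) (s - Finsupp.single a 1) (by
    have := congrArg Finsupp.degree e
    rw [map_add, Finsupp.degree_single] at this
    omega)
  rw [tr_pderiv_strict, coeff_pderiv, ← e] at h2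
  exact (mul_eq_zero.1 h2).resolve_right (Nat.cast_add_one_ne_zero _)

theorem mem_update_strict (p : Fin r → Fin 3 → ℂ) (D D' : Cl r) (i : Fin r) (q : Fin 3 → ℂ)
    (h1 : D'.1 = D.1) (h2 : ∀ j, j ≠ i → D'.2 j = D.2 j) (G : MvPolynomial (Fin 3) ℂ) :
    G ∈ fz (Function.update p i q) D' ↔
      G ∈ fz p (D.1, Function.update D.2 i 0) ∧ G ∈ mx q ^ (D'.2 i).toNat := by
  rw [mem_fz, mem_fz, h1]
  constructor
  · rintro (rfl | ⟨a, b, c⟩)
    · exact ⟨Or.inl rfl, zero_mem _⟩
    · refine ⟨Or.inr ⟨a, b, fun j => ?_⟩, by simpa using c i⟩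
      by_cases hj : j = i
      · subst hj
        simp
      · simpa [hj, h2 j hj] using c j
  · rintro ⟨rfl | ⟨a, b, c⟩, h⟩
    · exact Or.inl rfl
    · refine Or.inr ⟨a, b, fun j => ?_⟩
      by_cases hj : j = i
      · subst hj
        simpa using h
      · simpa [hj, h2 j hj] using c j

theorem semi_strict {U A : Type} [AddCommGroup U] [Module ℂ U] [FiniteDimensional ℂ U]
    (Φ : A → U →ₗ[ℂ] Polynomial ℂ) (h : ∀ u, (∀ a, (Φ a u).eval 0 = 0) → u = 0) :
    ∃ t : ℂ, t ≠ 0 ∧ ∀ u, (∀ a, (Φ a u).eval t = 0) → u = 0 := by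
  obtain ⟨t, ht, hle⟩ := Ex.Semi.semi_zs Φ
  have h0 : Ex.Semi.zs Φ 0 = ⊥ := eq_bot_iff.2 fun u hu => h u (Ex.Semi.mem_zs.1 hu)
  rw [h0, finrank_bot, Nat.le_zero, Submodule.finrank_eq_zero] at hle
  exact ⟨t, ht, fun u hu => (eq_bot_iff.1 hle) (Ex.Semi.mem_zs.2 hu)⟩

theorem rank_strict (A B : Type) [AddCommGroup A] [Module ℂ A] [FiniteDimensional ℂ A]
    [AddCommGroup B] [Module ℂ B] [FiniteDimensional ℂ B] :
    finrank ℂ (A × (B × ℂ)) = finrank ℂ A + (finrank ℂ B + 1) := by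
  rw [finrank_prod, finrank_prod, finrank_self]

theorem key_strict {W V : Submodule ℂ (MvPolynomial (Fin 3) ℂ)} [Module.Finite ℂ W]
    {q : Fin 3 → ℂ} {n : ℕ} (hV : ∀ G, G ∈ V ↔ G ∈ W ∧ G ∈ mx q ^ n) {G : MvPolynomial (Fin 3) ℂ}
    (hG : G ∈ W) (hG1 : G ∈ mx q ^ (n + 1)) {a : Fin 3} (ha : pderiv a G ∉ mx q ^ (n + 1)) :
    ∃ q' : Fin 3 → ℂ, ∀ V' : Submodule ℂ (MvPolynomial (Fin 3) ℂ),
      (∀ G ∈ V', G ∈ W ∧ G ∈ mx q' ^ (n + 1)) → finrank ℂ V' < finrank ℂ V := by
  obtain ⟨U, hU⟩ := Submodule.exists_isCompl (V.comap W.subtype)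
  let Φ : (Fin 3 →₀ ℕ) → MvPolynomial (Fin 3) ℂ →ₗ[ℂ] Polynomial ℂ := fun s =>
    (lcoeff (Polynomial ℂ) s).restrictScalars ℂ ∘ₗ (mov_strict q a).toLinearMap
  have hΦ : ∀ s u, Φ s u = (mov_strict q a u).coeff s := fun _ _ => rfl
  let Ψ : {s : Fin 3 →₀ ℕ // s.degree < n + 1} → U × ℂ →ₗ[ℂ] Polynomial ℂ := fun s =>
    (Φ s.1 ∘ₗ W.subtype ∘ₗ U.subtype).coprod (LinearMap.toSpanSingleton ℂ _ (Φ s.1 G).divX)
  have hΨ : ∀ s x, Ψ s x = Φ s.1 x.1.1.1 + x.2 • (Φ s.1 G).divX := fun _ _ => rfl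
  have h0 : ∀ x : U × ℂ, (∀ s, (Ψ s x).eval 0 = 0) → x = 0 := by
    rintro ⟨u, c⟩ hx
    have h1 : u.1.1 + c • pderiv a G ∈ mx q ^ (n + 1) := by
      rw [van_iff]
      intro s hs
      have := hx ⟨s, hs⟩
      rw [hΨ, ← Polynomial.coeff_zero_eq_eval_zero, Polynomial.coeff_add, Polynomial.coeff_smul,
        Polynomial.coeff_divX, hΦ, hΦ, mov_zero_strict, zero_add, mov_one_strict] at this
      rw [map_add, map_smul, coeff_add, coeff_smul]
      exact this
    have h2 : u.1.1 ∈ mx q ^ n := by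
      have h3 := Ideal.pow_le_pow_right (Nat.le_succ n) h1
      have h4 : c • pderiv a G ∈ mx q ^ n :=
        Submodule.smul_of_tower_mem _ c (pderiv_mem_strict hG1 a)
      simpa using sub_mem h3 h4
    have h5 : u.1 = 0 :=
      Submodule.disjoint_def.1 hU.disjoint u.1 ((hV _).2 ⟨u.1.2, h2⟩) u.2
    have h6 : c = 0 := by
      by_contra hc
      rw [h5, Submodule.coe_zero, zero_add] at h1
      have := Submodule.smul_of_tower_mem _ c⁻¹ h1
      rw [inv_smul_smul₀ hc] at this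
      exact ha this
    rw [h6, (Subtype.ext h5 : u = 0)]
    rfl
  obtain ⟨t, ht, hle⟩ := semi_strict (U := U × ℂ) Ψ h0
  refine ⟨q + t • (Pi.single a 1 : Fin 3 → ℂ), fun V' hV' => ?_⟩
  have hfin : Module.Finite ℂ V' := Submodule.finiteDimensional_of_le fun G h => (hV' G h).1
  let L : V' × (U × ℂ) →ₗ[ℂ] W :=
    (Submodule.inclusion fun G h => (hV' G h).1).coprod
      (U.subtype.coprod (LinearMap.toSpanSingleton ℂ _ ⟨G, hG⟩))
  have hL : Function.Injective L := by
    rw [injective_iff_map_eq_zero]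
    rintro ⟨v, u, c⟩ hx
    have h1 : v.1 + (u.1.1 + c • G) = 0 := congrArg Subtype.val hx
    have h2 : u.1.1 + c • G ∈ mx (q + t • (Pi.single a 1 : Fin 3 → ℂ)) ^ (n + 1) := by
      rw [eq_neg_of_add_eq_zero_right h1]
      exact neg_mem (hV' _ v.2).2
    have h3 : (u, c * t) = 0 := by
      refine hle _ fun s => ?_
      have h4 := (van_iff _ _ _).1 h2 s.1 s.2
      rw [map_add, map_smul, coeff_add, coeff_smul, ← mov_eval_strict, ← mov_eval_strict,
        ← hΦ, ← hΦ, ← Polynomial.divX_mul_X_add (Φ s.1 G), hΦ s.1 G, mov_zero_strict,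
        (van_iff _ _ _).1 hG1 s.1 s.2] at h4
      rw [hΨ, hΦ s.1 G]
      simp only [map_zero, add_zero, Polynomial.eval_mul, Polynomial.eval_X, smul_eq_mul,
        Polynomial.eval_add, Polynomial.eval_smul] at h4 ⊢
      linear_combination h4
    rw [Prod.mk_eq_zero] at h3
    have h5 : c = 0 := (mul_eq_zero.1 h3.2).resolve_right ht
    rw [h3.1, h5] at h1
    have h6 : v = 0 := Subtype.ext (by simpa using h1)
    rw [h6, h3.1, h5]
    rfl
  have e1 := LinearMap.finrank_le_finrank_of_injective hL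
  have e2 := Submodule.finrank_add_eq_of_isCompl hU
  rw [(Submodule.comapSubtypeEquivOfLe fun G h => ((hV G).1 h).1).finrank_eq] at e2
  have e3 : finrank ℂ V' + (finrank ℂ U + 1) ≤ finrank ℂ W := (rank_strict V' U).ge.trans e1
  omega

/-- Sketch: `n = D.2 i`. Take `p` with `Gen B p`; `V = fz p D = fz p (D - EE i)` by dimension.
Suppose `G ∈ V` and `pderiv a G ∉ mx (p i) ^ (n + 1)`. Let `W` be the system without the condition
at `p i`, `U` a complement of `V` in `W`. For `s` of degree at most `n` let `Φ s u` be the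
coefficient of `s` in the translate of `u` to the moving point `p i + t * Pi.single a 1`
(a polynomial in `t`). On `U × ℂ` put `Ψ s (u, c) = Φ s u + c • (Φ s G).divX`. At `t = 0` the
common kernel is zero (`u + c • pderiv a G ∈ mx ^ (n + 1)` gives `u ∈ mx ^ n`, so `u ∈ V`, `u = 0`,
`c = 0`). By `Ex.Semi.semi_zs` the kernel is zero for some `t ≠ 0`, so at the moved configuration
the system of `D - EE i` meets `U ⊔ span {G}` trivially and has smaller dimension, which
contradicts `hh_le`. Hence `V ≤ fz p (D - EE i - EE i)` by `mem_of_pderiv`. -/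
theorem hh_step {D : Cl r} {i : Fin r} (h0 : 0 ≤ D.2 i) (h : hh D ≤ hh (D - EE i)) :
    hh (D - EE i) ≤ hh (D - EE i - EE i) := by
  obtain ⟨p, hp⟩ := exists_gen_pt r D.1.toNat
  have hB := Int.self_le_toNat D.1
  have e0 := hp.2 D hB
  have e1 := hp.2 (D - EE i) (by rw [sub_EE_fst]; exact hB)
  have e2 := hp.2 (D - EE i - EE i) (by rw [sub_EE_fst, sub_EE_fst]; exact hB)
  have n1 : ((D - EE i).2 i).toNat = (D.2 i).toNat + 1 := by
    rw [sub_EE_snd, if_pos rfl]; omega
  have n2 : ((D - EE i - EE i).2 i).toNat = (D.2 i).toNat + 2 := by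
    rw [sub_EE_snd, sub_EE_snd, if_pos rfl]; omega
  have o1 : ∀ j, j ≠ i → (D - EE i).2 j = D.2 j := fun j hj => by
    rw [sub_EE_snd, if_neg hj, add_zero]
  have o2 : ∀ j, j ≠ i → (D - EE i - EE i).2 j = D.2 j := fun j hj => by
    rw [sub_EE_snd, if_neg hj, add_zero, o1 j hj]
  have m0 := mem_update_strict p D D i (p i) rfl fun _ _ => rfl
  have m1 := fun q => mem_update_strict p D (D - EE i) i q (sub_EE_fst D i) o1
  have m2 := mem_update_strict p D (D - EE i - EE i) i (p i) (by rw [sub_EE_fst, sub_EE_fst]) o2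
  have m1' := m1 (p i)
  rw [Function.update_eq_self] at m0 m1' m2
  rw [n1] at m1 m1'
  rw [n2] at m2
  rw [← e1, ← e2]
  refine Submodule.finrank_mono fun G hG => ?_
  obtain ⟨hG0, hG1⟩ := (m1' G).1 hG
  refine (m2 G).2 ⟨hG0, mem_of_pderiv hG1 fun a => ?_⟩
  by_contra ha
  obtain ⟨q, hq⟩ := key_strict m0 hG0 hG1 ha
  have h1 := hq _ fun G hG => (m1 q G).1 hG
  have h2 := hh_le (Function.update p i q) (D - EE i)
  omega

/-- Iterate `hh_step` until the multiplicity exceeds the degree (`hh_of_lt`). -/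
theorem hh_strict {D : Cl r} {i : Fin r} (h0 : 0 ≤ D.2 i) (h : 0 < hh (D - EE i)) :
    hh (D - EE i) < hh D := by
  by_contra hc
  have key : ∀ (k : ℕ) (D : Cl r), 0 ≤ D.2 i → D.1 < D.2 i + k → hh D ≤ hh (D - EE i) →
      hh (D - EE i) = 0 := by
    intro k
    induction k with
    | zero =>
      intro D _ h1 _
      refine hh_of_lt (i := i) ?_
      rw [sub_EE_fst, sub_EE_snd, if_pos rfl]
      omega
    | succ k ih =>
      intro D h0 h1 h2
      have h3 := hh_step h0 h2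
      have := ih (D - EE i) (by rw [sub_EE_snd, if_pos rfl]; omega)
        (by rw [sub_EE_fst, sub_EE_snd, if_pos rfl]; omega) h3
      omega
  have := key (D.1.toNat + 1) D h0 (by omega) (not_lt.1 hc)
  omega

end Pool.Agent.P.MP_8707bd_ag.Small
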