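import Mathlib
import Pool.Agent.P.MP_8707bd_ag.Main
import Pool.Agent.P.MP_8707bd_ag.All.Defs

/-!
Divisor classes on the blown up plane and their generic number of sections (helper file only).
-/

namespace Pool.Agent.P.MP_8707bd_ag.Small

open MvPolynomial Module

/-- The maximal ideal of a vector. -/
noncomputable abbrev mx (p : Fin 3 → ℂ) : Ideal (MvPolynomial (Fin 3) ℂ) := RingHom.ker (eval p)

/-- A class `(d, μ)` stands for `d H - ∑ μ i E i`. -/
abbrev Cl (r : ℕ) : Type := ℤ × (Fin r → ℤ)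

variable {r : ℕ}

/-- The class with natural degree and multiplicities. -/
def cl (d : ℕ) (μ : Fin r → ℕ) : Cl r := ((d : ℤ), fun i => (μ i : ℤ))

/-- The forms of degree `D.1` with multiplicity at least `D.2 i` at `p i`. -/
noncomputable def fz (p : Fin r → Fin 3 → ℂ) (D : Cl r) : Submodule ℂ (MvPolynomial (Fin 3) ℂ) :=
  if D.1 < 0 then ⊥ else homogeneousSubmodule (Fin 3) ℂ D.1.toNat ⊓
    ⨅ i, (mx (p i) ^ (D.2 i).toNat).restrictScalars ℂ

/-- The minimal (that is, generic) dimension of the linear system. -/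
noncomputable def hh (D : Cl r) : ℕ := sInf (Set.range fun p => finrank ℂ (fz p D))

/-- The intersection form. -/
def dot (A B : Cl r) : ℤ := A.1 * B.1 - ∑ i, A.2 i * B.2 i

/-- The anticanonical degree. -/
def kk (A : Cl r) : ℤ := 3 * A.1 - ∑ i, A.2 i

/-- Twice the Euler characteristic. -/
def chi2 (A : Cl r) : ℤ := (A.1 + 1) * (A.1 + 2) - ∑ i, A.2 i * (A.2 i + 1)

/-- The exceptional curve over the `i`-th point. -/
def EE (i : Fin r) : Cl r := (0, -Pi.single i 1)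

/-- The quadratic transformation with centres `T`. -/
def refl (T : Finset (Fin r)) (D : Cl r) : Cl r :=
  (D.1 + (D.1 - ∑ i ∈ T, D.2 i), fun i => D.2 i + if i ∈ T then D.1 - ∑ i ∈ T, D.2 i else 0)

/-- Additional points of multiplicity zero. -/
noncomputable def pad {s : ℕ} (f : Fin r → Fin s) (D : Cl r) : Cl s := (D.1, Function.extend f D.2 0)

/-- Symmetries of all the data. -/
structure Good (w : Cl r ≃+ Cl r) : Prop where
  hh_eq : ∀ D, hh (w D) = hh D
  dot_eq : ∀ A B, dot (w A) (w B) = dot A B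
  kk_eq : ∀ A, kk (w A) = kk A

/-- The configuration is general for all classes of degree at most `B`. -/
def Gen (B : ℕ) (p : Fin r → Fin 3 → ℂ) : Prop :=
  (∀ i, p i 2 ≠ 0) ∧ ∀ D : Cl r, D.1 ≤ B → finrank ℂ (fz p D) = hh D

/-- The form `F` has exactly the degree `e` and the multiplicities `n`. -/
def Exact (p : Fin r → Fin 3 → ℂ) (F : MvPolynomial (Fin 3) ℂ) (e : ℕ) (n : Fin r → ℕ) : Prop :=
  F ≠ 0 ∧ F.IsHomogeneous e ∧ ∀ i, F ∈ mx (p i) ^ n i ∧ F ∉ mx (p i) ^ (n i + 1)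

/-- The class is effective and does not split. -/
def Ind (φ : Cl r) : Prop :=
  0 < hh φ ∧ ∀ α β : Cl r, α + β = φ → 0 < hh α → 0 < hh β → α = 0 ∨ β = 0

/-- Removing the class for the second time lowers the dimension. -/
def Str (φ : Cl r) : Prop :=
  ∀ D : Cl r, -1 ≤ dot D φ → 0 < hh (D - φ - φ) → hh (D - φ - φ) < hh (D - φ)

/-- The numerical form of the conjecture for the class `D`. -/
def Num (D : Cl r) : Prop :=
  hh D = 0 ∨ 2 * (hh D : ℤ) ≤ chi2 D ∨ ∃ (e : ℕ) (n : Fin r → ℕ), 1 ≤ e ∧ Ind (cl e n) ∧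
    dot (cl e n) (cl e n) = -1 ∧ kk (cl e n) = 1 ∧ hh D ≤ hh (D - cl e n - cl e n)

theorem mem_fz {p : Fin r → Fin 3 → ℂ} {D : Cl r} {G : MvPolynomial (Fin 3) ℂ} :
    G ∈ fz p D ↔ G = 0 ∨ 0 ≤ D.1 ∧ G.IsHomogeneous D.1.toNat ∧
      ∀ i, G ∈ mx (p i) ^ (D.2 i).toNat := by
  unfold fz
  split_ifs with h
  · rw [Submodule.mem_bot]
    exact ⟨Or.inl, fun h' => h'.resolve_right fun h' => absurd h'.1 h.not_ge⟩
  · rw [Submodule.mem_inf, Submodule.mem_iInf, mem_homogeneousSubmodule]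
    refine ⟨fun h' => Or.inr ⟨not_lt.1 h, h'⟩, ?_⟩
    rintro (rfl | h')
    · exact ⟨isHomogeneous_zero _ _ _, fun _ => zero_mem _⟩
    · exact h'.2

theorem mem_fz_cl {p : Fin r → Fin 3 → ℂ} {d : ℕ} {μ : Fin r → ℕ} {G : MvPolynomial (Fin 3) ℂ} :
    G ∈ fz p (cl d μ) ↔ G.IsHomogeneous d ∧ ∀ i, G ∈ mx (p i) ^ μ i := by
  rw [mem_fz]
  simp only [cl, Int.toNat_natCast]
  refine ⟨?_, fun h => Or.inr ⟨Int.natCast_nonneg d, h⟩⟩
  rintro (rfl | h)
  · exact ⟨isHomogeneous_zero _ _ _, fun _ => zero_mem _⟩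
  · exact h.2

theorem fz_le_hom (p : Fin r → Fin 3 → ℂ) (D : Cl r) :
    fz p D ≤ homogeneousSubmodule (Fin 3) ℂ D.1.toNat := fun G hG => by
  rcases mem_fz.1 hG with rfl | h
  · exact zero_mem _
  · exact h.2.1

instance fz_finite (p : Fin r → Fin 3 → ℂ) (D : Cl r) : Module.Finite ℂ (fz p D) :=
  Submodule.finiteDimensional_of_le (fz_le_hom p D)

theorem hh_le (p : Fin r → Fin 3 → ℂ) (D : Cl r) : hh D ≤ finrank ℂ (fz p D) :=
  Nat.sInf_le ⟨p, rfl⟩

theorem exists_hh (D : Cl r) : ∃ p, finrank ℂ (fz p D) = hh D :=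
  Nat.sInf_mem (Set.range_nonempty fun p => finrank ℂ (fz p D))

theorem fz_mono (p : Fin r → Fin 3 → ℂ) {D D' : Cl r} (h : D.1 = D'.1)
    (h' : ∀ i, (D'.2 i).toNat ≤ (D.2 i).toNat) : fz p D ≤ fz p D' := fun G hG => by
  rcases mem_fz.1 hG with rfl | hG
  · exact zero_mem _
  · exact mem_fz.2 (Or.inr ⟨h ▸ hG.1, h ▸ hG.2.1, fun i =>
      Ideal.pow_le_pow_right (h' i) (hG.2.2 i)⟩)

theorem hh_mono {D D' : Cl r} (h : D.1 = D'.1) (h' : ∀ i, (D'.2 i).toNat ≤ (D.2 i).toNat) :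
    hh D ≤ hh D' := by
  obtain ⟨p, hp⟩ := exists_hh D'
  exact (hh_le p D).trans (hp ▸ Submodule.finrank_mono (fz_mono p h h'))

theorem hh_congr {D D' : Cl r} (h : D.1 = D'.1) (h' : ∀ i, (D'.2 i).toNat = (D.2 i).toNat) :
    hh D = hh D' :=
  le_antisymm (hh_mono h fun i => (h' i).le) (hh_mono h.symm fun i => (h' i).ge)

theorem hh_of_neg {D : Cl r} (h : D.1 < 0) : hh D = 0 := by
  have := hh_le (fun _ _ => 0) D
  rw [fz, if_pos h, finrank_bot] at this
  exact Nat.le_zero.1 this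

theorem exists_ne_zero (p : Fin r → Fin 3 → ℂ) {D : Cl r} (h : 0 < hh D) :
    ∃ G ∈ fz p D, G ≠ 0 := by
  refine Submodule.exists_mem_ne_zero_of_ne_bot fun e => ?_
  have := hh_le p D
  rw [e, finrank_bot] at this
  omega

theorem chi2_eq (A : Cl r) : chi2 A = dot A A + kk A + 2 := by
  simp only [chi2, dot, kk, mul_add, mul_one, Finset.sum_add_distrib]
  ring

theorem dot_comm (A B : Cl r) : dot A B = dot B A := by
  simp only [dot, mul_comm]

theorem dot_sub (A B C : Cl r) : dot (A - B) C = dot A C - dot B C := by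
  simp only [dot, Prod.fst_sub, Prod.snd_sub, Pi.sub_apply, sub_mul, Finset.sum_sub_distrib]
  ring

theorem kk_sub (A B : Cl r) : kk (A - B) = kk A - kk B := by
  simp only [kk, Prod.fst_sub, Prod.snd_sub, Pi.sub_apply, Finset.sum_sub_distrib]
  ring

theorem dot_EE (D : Cl r) (i : Fin r) : dot D (EE i) = D.2 i := by
  simp [dot, EE, Pi.single_apply]

theorem kk_EE (i : Fin r) : kk (EE i) = 1 := by
  simp [kk, EE, Pi.single_apply]

theorem sub_EE_fst (D : Cl r) (i : Fin r) : (D - EE i).1 = D.1 := by simp [EE]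

theorem sub_EE_snd (D : Cl r) (i j : Fin r) :
    (D - EE i).2 j = D.2 j + if j = i then 1 else 0 := by simp [EE, Pi.single_apply]

end Pool.Agent.P.MP_8707bd_ag.Small
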