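import Pool.Agent.P.MP_8707bd_ag.Small.Defs

/-!
Products and quotients of forms with prescribed multiplicities (helper file only).
-/

namespace Pool.Agent.P.MP_8707bd_ag.Small

open MvPolynomial Module All

variable {r : ℕ} {p : Fin r → Fin 3 → ℂ}

/-- The deformation to the tangent cone at a vector. -/
noncomputable def cone_mul (q : Fin 3 → ℂ) :
    MvPolynomial (Fin 3) ℂ →ₐ[ℂ] Polynomial (MvPolynomial (Fin 3) ℂ) :=
  aeval fun a => Polynomial.C (C (q a)) + Polynomial.X * Polynomial.C (X a - C (q a))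

theorem cone_eval_one_mul (q : Fin 3 → ℂ) (G : MvPolynomial (Fin 3) ℂ) :
    Polynomial.eval 1 (cone_mul q G) = G := by
  induction G using MvPolynomial.induction_on with
  | C a => simp [cone_mul, Polynomial.algebraMap_apply]
  | add f g hf hg => simp [hf, hg]
  | mul_X f a hf => rw [map_mul, Polynomial.eval_mul, hf]; simp [cone_mul]

theorem cone_eval_zero_mul (q : Fin 3 → ℂ) (G : MvPolynomial (Fin 3) ℂ) :
    Polynomial.eval 0 (cone_mul q G) = C (eval q G) := by
  induction G using MvPolynomial.induction_on with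
  | C a => simp [cone_mul, Polynomial.algebraMap_apply]
  | add f g hf hg => simp [hf, hg]
  | mul_X f a hf => rw [map_mul, Polynomial.eval_mul, hf]; simp [cone_mul]

theorem cone_mem_rees_mul (q : Fin 3 → ℂ) (G : MvPolynomial (Fin 3) ℂ) :
    cone_mul q G ∈ reesAlgebra (mx q) := by
  induction G using MvPolynomial.induction_on with
  | C a =>
    have : cone_mul q (C a) = algebraMap (MvPolynomial (Fin 3) ℂ) _ (C a) := by
      simp [cone_mul, Polynomial.algebraMap_apply]
    rw [this]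
    exact Subalgebra.algebraMap_mem _ _
  | add f g hf hg => rw [map_add]; exact add_mem hf hg
  | mul_X f a hf =>
    rw [map_mul]
    refine mul_mem hf ?_
    simp only [cone_mul, aeval_X]
    refine add_mem (Subalgebra.algebraMap_mem _ _) ?_
    rw [Polynomial.X_mul_C, Polynomial.C_mul_X_eq_monomial, reesAlgebra.monomial_mem, pow_one]
    simp [RingHom.mem_ker]

theorem mem_pow_iff_mul (q : Fin 3 → ℂ) (G : MvPolynomial (Fin 3) ℂ) (k : ℕ) :
    G ∈ mx q ^ k ↔ Polynomial.X ^ k ∣ cone_mul q G := by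
  constructor
  · intro h
    have h0 : mx q ≤ (Ideal.span {Polynomial.X}).comap (cone_mul q) := fun L hL => by
      rw [Ideal.mem_comap, Ideal.mem_span_singleton, Polynomial.X_dvd_iff,
        Polynomial.coeff_zero_eq_eval_zero, cone_eval_zero_mul, RingHom.mem_ker.1 hL, map_zero]
    have h1 := Ideal.pow_right_mono h0 k h
    have h2 := Ideal.le_comap_pow (cone_mul q) k h1
    rwa [Ideal.mem_comap, Ideal.span_singleton_pow, Ideal.mem_span_singleton] at h2
  · intro h
    rw [← cone_eval_one_mul q G, Polynomial.eval_eq_sum_range]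
    refine Ideal.sum_mem _ fun j _ => ?_
    rw [one_pow, mul_one]
    by_cases hj : j < k
    · rw [Polynomial.X_pow_dvd_iff.1 h j hj]; exact zero_mem _
    · exact Ideal.pow_le_pow_right (by omega)
        ((mem_reesAlgebra_iff _ _).1 (cone_mem_rees_mul q G) j)

theorem cone_zero_hom_mul {G : MvPolynomial (Fin 3) ℂ} {k : ℕ} (h : G.IsHomogeneous k) :
    cone_mul 0 G = Polynomial.monomial k G := by
  have key : ∀ s ∈ G.support, cone_mul 0 (monomial s (G.coeff s)) =
      Polynomial.monomial k (monomial s (G.coeff s)) := fun s hs => by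
    have hk : k = ∑ a, s a := by
      have := h (mem_support_iff.1 hs)
      rw [← this, Finsupp.weight_apply, Finsupp.sum_fintype _ _ (by simp)]
      simp
    rw [monomial_eq, Finsupp.prod_fintype _ _ (by simp), hk, ← Polynomial.C_mul_X_pow_eq_monomial]
    simp only [cone_mul, map_mul, map_prod, map_pow, aeval_C, aeval_X, Pi.zero_apply, map_zero,
      zero_add, sub_zero, Polynomial.algebraMap_apply, algebraMap_eq, mul_pow,
      Finset.prod_mul_distrib, Finset.prod_pow_eq_pow_sum]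
    ring
  conv_lhs => rw [G.as_sum, map_sum, Finset.sum_congr rfl key, ← map_sum, ← G.as_sum]

theorem cone_zero_coeff_mul (G : MvPolynomial (Fin 3) ℂ) (k : ℕ) :
    (cone_mul 0 G).coeff k = homogeneousComponent k G := by
  conv_lhs => rw [← sum_homogeneousComponent G, map_sum, Finset.sum_congr rfl fun j _ =>
    cone_zero_hom_mul (homogeneousComponent_isHomogeneous j G)]
  rw [Polynomial.finsetSum_coeff]
  simp only [Polynomial.coeff_monomial, Finset.sum_ite_eq', Finset.mem_range]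
  split_ifs with h
  · rfl
  · exact (homogeneousComponent_eq_zero _ _ (by omega)).symm

theorem tr_deg_mul (q : Fin 3 → ℂ) (F : MvPolynomial (Fin 3) ℂ) :
    (tr q F).totalDegree ≤ F.totalDegree := by
  conv_lhs => rw [F.as_sum, map_sum]
  refine totalDegree_finsetSum_le fun s hs => ?_
  rw [monomial_eq, map_mul, Finsupp.prod_fintype _ _ (by simp), map_prod]
  refine (totalDegree_mul _ _).trans ?_
  have h1 : (tr q (C (F.coeff s))).totalDegree = 0 := by simp [tr]
  rw [h1, zero_add]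
  refine (totalDegree_finsetProd _ _).trans (le_trans ?_ (le_totalDegree hs))
  rw [Finsupp.sum_fintype _ _ (by simp)]
  refine Finset.sum_le_sum fun a _ => ?_
  rw [map_pow]
  refine (totalDegree_pow _ _).trans ?_
  have h2 : (tr q (X a)).totalDegree ≤ 1 := by
    simp only [tr, aeval_X]
    refine (totalDegree_add _ _).trans ?_
    simp
  simpa using Nat.mul_le_mul_left (s a) h2

/-- The order of vanishing is additive. Sketch: copy `mem_pow_iff`, `mem_pow_of_mul` of
`Order.lean` with the substitution `X a ↦ C (C (q a)) + X * C (X a - C (q a))`. -/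
theorem mx_div (q : Fin 3 → ℂ) {F H : MvPolynomial (Fin 3) ℂ} {n m : ℕ}
    (hF : F ∉ mx q ^ (n + 1)) (h : F * H ∈ mx q ^ m) : H ∈ mx q ^ (m - n) := by
  rw [mem_pow_iff_mul q, pow_dvd_iff_le_emultiplicity] at *
  rw [map_mul, emultiplicity_mul Polynomial.prime_X] at h
  have h1 : emultiplicity Polynomial.X (cone_mul q F) ≤ n := by
    rw [not_le] at hF
    exact Order.le_of_lt_add_one (by exact_mod_cast hF)
  rw [ENat.natCast_sub, tsub_le_iff_left]
  exact h.trans (add_le_add_left h1 _)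

/-- Sketch: `van_iff`; the translate has total degree at most `d`, so all coefficients vanish. -/
theorem eq_zero_of_mem {q : Fin 3 → ℂ} {F : MvPolynomial (Fin 3) ℂ} {d n : ℕ}
    (hF : F.IsHomogeneous d) (hn : d < n) (h : F ∈ mx q ^ n) : F = 0 := by
  have h1 : tr q F = 0 := by
    by_contra hne
    obtain ⟨s, hs⟩ := ne_zero_iff.1 hne
    have h2 := le_totalDegree (mem_support_iff.2 hs)
    have h3 := (tr_deg_mul q F).trans hF.totalDegree_le
    refine hs ((van_iff q n F).1 h s ?_)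
    have h4 : s.degree = s.sum fun _ e => e := rfl
    omega
  rw [← tr_zero F, ← neg_add_cancel q, ← tr_tr, h1, map_zero]

theorem fz_eq_bot {D : Cl r} {i : Fin r} (h : D.1 < D.2 i) : fz p D = ⊥ := by
  refine (Submodule.eq_bot_iff _).2 fun G hG => ?_
  rcases mem_fz.1 hG with rfl | ⟨h0, h1, h2⟩
  · rfl
  · exact eq_zero_of_mem h1 (by omega) (h2 i)

theorem hh_of_lt {D : Cl r} {i : Fin r} (h : D.1 < D.2 i) : hh D = 0 := by
  have := hh_le (fun _ _ => 0) D
  rw [fz_eq_bot h, finrank_bot] at this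
  exact Nat.le_zero.1 this

theorem nonneg_of_pos {D : Cl r} (h : 0 < hh D) : 0 ≤ D.1 ∧ ∀ i, D.2 i ≤ D.1 := by
  refine ⟨not_lt.1 fun h' => ?_, fun i => not_lt.1 fun h' => ?_⟩
  · rw [hh_of_neg h'] at h; exact lt_irrefl _ h
  · rw [hh_of_lt h'] at h; exact lt_irrefl _ h

/-- The constant one lies in all these systems. -/
theorem hh_pos_of_nonpos {D : Cl r} (h : D.1 = 0) (h' : ∀ i, D.2 i ≤ 0) : 0 < hh D := by
  obtain ⟨p, hp⟩ := exists_hh D
  rw [← hp, Nat.pos_iff_ne_zero, Ne, Submodule.finrank_eq_zero]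
  intro e
  have h1 : (1 : MvPolynomial (Fin 3) ℂ) ∈ fz p D := by
    refine mem_fz.2 (Or.inr ⟨h.ge, ?_, fun i => ?_⟩)
    · rw [h]; exact isHomogeneous_one _ _
    · rw [Int.toNat_eq_zero.2 (h' i), pow_zero, Ideal.one_eq_top]; trivial
  rw [e, Submodule.mem_bot] at h1
  exact one_ne_zero h1

theorem exists_exact (p : Fin r → Fin 3 → ℂ) {F : MvPolynomial (Fin 3) ℂ} {e : ℕ} (h0 : F ≠ 0)
    (hF : F.IsHomogeneous e) : ∃ n, Exact p F e n := by
  classical
  have key : ∀ i, ∃ n, F ∈ mx (p i) ^ n ∧ F ∉ mx (p i) ^ (n + 1) := fun i => by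
    have h1 : ∃ n, F ∉ mx (p i) ^ (n + 1) :=
      ⟨e, fun h => h0 (eq_zero_of_mem hF (Nat.lt_succ_self e) h)⟩
    refine ⟨Nat.find h1, ?_, Nat.find_spec h1⟩
    rcases hk : Nat.find h1 with _ | k
    · rw [pow_zero, Ideal.one_eq_top]; trivial
    · exact not_not.1 (Nat.find_min h1 (by omega))
  choose n hn using key
  exact ⟨n, h0, hF, hn⟩

theorem Exact.mem {F : MvPolynomial (Fin 3) ℂ} {e : ℕ} {n : Fin r → ℕ} (h : Exact p F e n) :
    F ∈ fz p (cl e n) := by
  exact mem_fz_cl.2 ⟨h.2.1, fun i => (h.2.2 i).1⟩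

theorem Exact.le {F : MvPolynomial (Fin 3) ℂ} {e : ℕ} {n : Fin r → ℕ} (h : Exact p F e n)
    {D : Cl r} (hD : F ∈ fz p D) : D.1 = e ∧ ∀ i, D.2 i ≤ n i := by
  rcases mem_fz.1 hD with h0 | ⟨h0, h1, h2⟩
  · exact absurd h0 h.1
  · refine ⟨?_, fun i => not_lt.1 fun hi => (h.2.2 i).2 ?_⟩
    · have := h1.inj_right h.2.1 h.1
      omega
    · exact Ideal.pow_le_pow_right (by omega) (h2 i)

theorem fz_mul {A B : MvPolynomial (Fin 3) ℂ} {α β : Cl r} (hA : A ∈ fz p α) (hB : B ∈ fz p β) :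
    A * B ∈ fz p (α + β) := by
  rcases mem_fz.1 hA with rfl | ⟨a0, a1, a2⟩
  · rw [zero_mul]; exact zero_mem _
  rcases mem_fz.1 hB with rfl | ⟨b0, b1, b2⟩
  · rw [mul_zero]; exact zero_mem _
  refine mem_fz.2 (Or.inr ⟨add_nonneg a0 b0, ?_, fun i => ?_⟩)
  · rw [Prod.fst_add, Int.toNat_add a0 b0]
    exact a1.mul b1
  · have h1 := Ideal.mul_mem_mul (a2 i) (b2 i)
    rw [← pow_add] at h1
    refine Ideal.pow_le_pow_right ?_ h1
    rw [Prod.snd_add, Pi.add_apply]
    omega

/-- Use `hom_of_mul` and `mx_div`. -/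
theorem Exact.div {F H : MvPolynomial (Fin 3) ℂ} {e : ℕ} {n : Fin r → ℕ} (h : Exact p F e n)
    {D : Cl r} (hD : F * H ∈ fz p D) : H ∈ fz p (D - cl e n) := by
  by_cases hH : H = 0
  · rw [hH]; exact zero_mem _
  rcases mem_fz.1 hD with h0 | ⟨h0, h1, h2⟩
  · exact absurd h0 (mul_ne_zero h.1 hH)
  obtain ⟨q1, q2⟩ := hom_of_mul h.2.1 h.1 h1
  have q3 := q2 hH
  have e1 : (D - cl e n).1 = D.1 - e := rfl
  refine mem_fz.2 (Or.inr ⟨by omega, ?_, fun i => ?_⟩)
  · rwa [show (D - cl e n).1.toNat = D.1.toNat - e by omega]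
  · have e2 : (D - cl e n).2 i = D.2 i - n i := rfl
    rw [show ((D - cl e n).2 i).toNat = (D.2 i).toNat - n i by omega]
    exact mx_div _ (h.2.2 i).2 (h2 i)

/-- Factors of a form are forms. Sketch: compare the components of lowest and highest degree, or
substitute `X a ↦ t * X a` and use that a divisor of a monomial in `t` is a monomial. -/
theorem hom_factor {A B : MvPolynomial (Fin 3) ℂ} {e : ℕ} (h0 : A * B ≠ 0)
    (h : (A * B).IsHomogeneous e) : ∃ a, A.IsHomogeneous a := by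
  have h1 := cone_zero_hom_mul h
  rw [map_mul] at h1
  have h2 : cone_mul 0 A * cone_mul 0 B ≠ 0 := by
    rw [h1]; exact fun e => h0 (Polynomial.monomial_eq_zero_iff _ _ |>.1 e)
  have hA := left_ne_zero_of_mul h2
  have hB := right_ne_zero_of_mul h2
  have d1 := Polynomial.natDegree_mul hA hB
  have d2 := Polynomial.natTrailingDegree_mul hA hB
  rw [h1, Polynomial.natDegree_monomial_eq _ h0] at d1
  rw [h1, Polynomial.natTrailingDegree_monomial h0] at d2
  have l1 := Polynomial.natTrailingDegree_le_natDegree (cone_mul 0 A)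
  have l2 := Polynomial.natTrailingDegree_le_natDegree (cone_mul 0 B)
  refine ⟨(cone_mul 0 A).natDegree, ?_⟩
  have key : ∀ k, (homogeneousComponent k A).IsHomogeneous (cone_mul 0 A).natDegree := fun k => by
    rcases lt_trichotomy k (cone_mul 0 A).natDegree with hk | hk | hk
    · rw [← cone_zero_coeff_mul, Polynomial.coeff_eq_zero_of_lt_natTrailingDegree (by omega)]
      exact isHomogeneous_zero _ _ _
    · rw [← hk]; exact homogeneousComponent_isHomogeneous _ _
    · rw [← cone_zero_coeff_mul, Polynomial.coeff_eq_zero_of_natDegree_lt hk]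
      exact isHomogeneous_zero _ _ _
  have h3 := IsHomogeneous.sum (Finset.range (A.totalDegree + 1)) _ _ fun k _ => key k
  rwa [sum_homogeneousComponent] at h3

theorem isUnit_of_hom_zero {A : MvPolynomial (Fin 3) ℂ} (h0 : A ≠ 0) (h : A.IsHomogeneous 0) :
    IsUnit A := by
  rw [← totalDegree_zero_iff_isHomogeneous, totalDegree_eq_zero_iff_eq_C] at h
  rw [h] at h0 ⊢
  exact (isUnit_iff_ne_zero.2 fun e => h0 (by rw [e, map_zero])).map C

theorem eq_zero_of_isUnit {A : MvPolynomial (Fin 3) ℂ} {D : Cl r} (hA : IsUnit A)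
    (h : A ∈ fz p D) : D.1 = 0 ∧ ∀ i, D.2 i ≤ 0 := by
  rcases mem_fz.1 h with h0 | ⟨h0, h1, h2⟩
  · exact absurd h0 hA.ne_zero
  obtain ⟨B, hB⟩ := hA.exists_right_inv
  refine ⟨?_, fun i => not_lt.1 fun hi => ?_⟩
  · have := (hom_of_mul h1 hA.ne_zero (d := 0) (H := B) (by
      rw [hB]; exact isHomogeneous_one _ _)).2 (right_ne_zero_of_mul (by rw [hB]; exact one_ne_zero))
    omega
  · have h3 := Ideal.pow_le_self (show (D.2 i).toNat ≠ 0 by omega) (h2 i)
    have h4 := congrArg (eval (p i)) hB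
    rw [map_mul, RingHom.mem_ker.1 h3, zero_mul, map_one] at h4
    exact zero_ne_one h4

theorem map_le_mul {Γ : MvPolynomial (Fin 3) ℂ} {C : Cl r} (hΓ : Γ ∈ fz p C) (D : Cl r) :
    (fz p (D - C)).map (LinearMap.mulLeft ℂ Γ) ≤ fz p D := by
  rintro _ ⟨H, hH, rfl⟩
  have := fz_mul hΓ hH
  rwa [add_sub_cancel] at this

theorem rank_map_mul {Γ : MvPolynomial (Fin 3) ℂ} (h0 : Γ ≠ 0) (D : Cl r) :
    finrank ℂ ((fz p D).map (LinearMap.mulLeft ℂ Γ)) = finrank ℂ (fz p D) :=
  (LinearEquiv.finrank_eq (Submodule.equivMapOfInjective _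
    (fun _ _ e => mul_left_cancel₀ h0 e) _)).symm

theorem rank_sub_le {Γ : MvPolynomial (Fin 3) ℂ} {C : Cl r} (h0 : Γ ≠ 0) (hΓ : Γ ∈ fz p C)
    (D : Cl r) : finrank ℂ (fz p (D - C)) ≤ finrank ℂ (fz p D) := by
  rw [← rank_map_mul h0]
  exact Submodule.finrank_mono (map_le_mul hΓ D)

theorem hh_sub_le {C : Cl r} (hC : 0 < hh C) (D : Cl r) : hh (D - C) ≤ hh D := by
  obtain ⟨p, hp⟩ := exists_hh D
  obtain ⟨Γ, hΓ, h0⟩ := exists_ne_zero p hC
  exact (hh_le p _).trans (hp ▸ rank_sub_le h0 hΓ D)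

theorem exists_mul_of_rank {Γ : MvPolynomial (Fin 3) ℂ} {C D : Cl r} (h0 : Γ ≠ 0)
    (hΓ : Γ ∈ fz p C) (h : finrank ℂ (fz p D) ≤ finrank ℂ (fz p (D - C))) :
    ∀ G ∈ fz p D, ∃ H ∈ fz p (D - C), G = Γ * H := by
  intro G hG
  rw [← rank_map_mul h0 (D - C)] at h
  rw [← Submodule.eq_of_le_of_finrank_le (map_le_mul hΓ D) h] at hG
  obtain ⟨H, hH, e⟩ := hG
  exact ⟨H, hH, e.symm⟩

theorem Exact.rank_le {F : MvPolynomial (Fin 3) ℂ} {e : ℕ} {n : Fin r → ℕ} (h : Exact p F e n)
    {D : Cl r} (hD : ∀ G ∈ fz p D, F ∣ G) :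
    finrank ℂ (fz p D) ≤ finrank ℂ (fz p (D - cl e n)) := by
  refine le_trans (Submodule.finrank_mono ?_)
    (Submodule.finrank_map_le (LinearMap.mulLeft ℂ F) _)
  intro G hG
  obtain ⟨H, rfl⟩ := hD G hG
  exact ⟨H, h.div hG, rfl⟩

theorem Exact.rank_le_two {F : MvPolynomial (Fin 3) ℂ} {e : ℕ} {n : Fin r → ℕ}
    (h : Exact p F e n) {D : Cl r} (hD : ∀ G ∈ fz p D, F ^ 2 ∣ G) :
    finrank ℂ (fz p D) ≤ finrank ℂ (fz p (D - cl e n - cl e n)) := by
  refine le_trans (Submodule.finrank_mono ?_)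
    (Submodule.finrank_map_le (LinearMap.mulLeft ℂ (F ^ 2)) _)
  intro G hG
  obtain ⟨H, rfl⟩ := hD G hG
  refine ⟨H, h.div (h.div ?_), rfl⟩
  rwa [← mul_assoc, ← pow_two]

end Pool.Agent.P.MP_8707bd_ag.Small
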