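import Pool.Agent.P.MP_8707bd_ag.Small.Weyl
import Pool.Agent.P.MP_8707bd_ag.Win.Square
import Pool.Agent.P.MP_8707bd_ag.Ex.Lower

/-!
At most nine points (helper file only).
-/

namespace Pool.Agent.P.MP_8707bd_ag.Small

open MvPolynomial Module All Win

variable {r : ℕ}

theorem pad_in_nine {s : ℕ} {f : Fin r → Fin s} (hf : Function.Injective f) (D : Cl r)
    (i : Fin r) : (pad f D).2 (f i) = D.2 i := hf.extend_apply _ _ _

theorem pad_out_nine {s : ℕ} {f : Fin r → Fin s} (D : Cl r) {j : Fin s}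
    (hj : ¬ ∃ i, f i = j) : (pad f D).2 j = 0 := Function.extend_apply' _ _ _ hj

theorem fz_pad_nine {s : ℕ} {f : Fin r → Fin s} (hf : Function.Injective f) (D : Cl r)
    (p : Fin s → Fin 3 → ℂ) : fz p (pad f D) = fz (fun i => p (f i)) D := by
  ext G
  rw [mem_fz, mem_fz]
  refine or_congr_right (and_congr_right fun _ => and_congr_right fun _ => ⟨fun h i => ?_,
    fun h j => ?_⟩)
  · have := h (f i)
    rwa [pad_in_nine hf] at this
  · by_cases hj : ∃ i, f i = j
    · obtain ⟨i, rfl⟩ := hj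
      rw [pad_in_nine hf]
      exact h i
    · rw [pad_out_nine D hj]
      simp

theorem hh_pad {s : ℕ} {f : Fin r → Fin s} (hf : Function.Injective f) (D : Cl r) :
    hh (pad f D) = hh D := by
  unfold hh
  congr 1
  ext n
  constructor
  · rintro ⟨p, rfl⟩
    exact ⟨fun i => p (f i), by beta_reduce; rw [fz_pad_nine hf]⟩
  · rintro ⟨q, rfl⟩
    refine ⟨Function.extend f q 0, ?_⟩
    have e : (fun i => Function.extend f q 0 (f i)) = q := funext fun i => hf.extend_apply _ _ _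
    beta_reduce
    rw [fz_pad_nine hf, e]

theorem pad_add_nine {s : ℕ} {f : Fin r → Fin s} (hf : Function.Injective f) (A B : Cl r) :
    pad f (A + B) = pad f A + pad f B := by
  refine Prod.ext rfl (funext fun j => ?_)
  rw [Prod.snd_add, Pi.add_apply]
  by_cases hj : ∃ i, f i = j
  · obtain ⟨i, rfl⟩ := hj
    simp only [pad_in_nine hf, Prod.snd_add, Pi.add_apply]
  · simp only [pad_out_nine _ hj, add_zero]

theorem pad_sub_nine {s : ℕ} {f : Fin r → Fin s} (hf : Function.Injective f) (A B : Cl r) :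
    pad f (A - B) = pad f A - pad f B := by
  rw [eq_sub_iff_add_eq, ← pad_add_nine hf, sub_add_cancel]

theorem pad_zero_nine {s : ℕ} {f : Fin r → Fin s} (hf : Function.Injective f) {A : Cl r}
    (h : pad f A = 0) : A = 0 := by
  have h1 : (pad f A).1 = 0 := congrArg Prod.fst h
  refine Prod.ext h1 (funext fun i => ?_)
  rw [← pad_in_nine hf, h]
  rfl

theorem dot_pad_nine {s : ℕ} {f : Fin r → Fin s} (hf : Function.Injective f) (A B : Cl r) :
    dot (pad f A) (pad f B) = dot A B := by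
  unfold dot
  congr 1
  refine (Fintype.sum_of_injective f hf _ _ (fun j hj => ?_) fun i => ?_).symm
  · rw [pad_out_nine A hj, zero_mul]
  · rw [pad_in_nine hf, pad_in_nine hf]

theorem chi2_pad_nine {s : ℕ} {f : Fin r → Fin s} (hf : Function.Injective f) (A : Cl r) :
    chi2 (pad f A) = chi2 A := by
  unfold chi2
  congr 1
  refine (Fintype.sum_of_injective f hf _ _ (fun j hj => ?_) fun i => ?_).symm
  · rw [pad_out_nine A hj, zero_mul]
  · rw [pad_in_nine hf]

theorem choose_nine (n : ℕ) : 2 * (((n + 1).choose 2 : ℕ) : ℤ) = n * (n + 1) := by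
  induction n with
  | zero => simp
  | succ n ih =>
    rw [Nat.choose_succ_succ' (n + 1) 1, Nat.choose_one_right]
    push_cast
    linarith

theorem hh_full_nine {k b : ℕ} (hk : k ≤ 3) {D : Cl (k ^ 2)} (h1 : ∀ i, -1 ≤ D.2 i)
    (h2 : ∀ i, D.2 i ≤ b) (h3 : (k * b : ℤ) ≤ D.1) : 2 * (hh D : ℤ) ≤ chi2 D := by
  have h0 : 0 ≤ D.1 := le_trans (by positivity) h3
  obtain ⟨d, hd⟩ := Int.eq_ofNat_of_zero_le h0
  have h4 : k * b ≤ d := by
    rw [hd] at h3
    exact_mod_cast h3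
  obtain ⟨e, he, hke⟩ := sq_up k b (d + 1) (by rw [mul_assoc]; omega)
  have hμ : ∀ i, (D.2 i).toNat ≤ b := fun i => Int.toNat_le.2 (h2 i)
  have h5 := hh_le_of_ke (Ex.ke_lower_up (tri_finite _) hke (μ' := fun i => (D.2 i).toNat) hμ)
  have h6 : hh D = hh (cl d fun i => (D.2 i).toNat) :=
    hh_congr hd fun i => by simp only [cl, Int.toNat_natCast]
  rw [← h6] at h5
  have h7 : (hh D : ℤ) ≤ e + ∑ i, ((((b + 1).choose 2 : ℕ) : ℤ) -
      (((D.2 i).toNat + 1).choose 2 : ℕ)) := by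
    have := Int.ofNat_le.2 h5
    rw [Nat.cast_add, Nat.cast_sum] at this
    refine this.trans (le_of_eq ?_)
    congr 1
    exact Finset.sum_congr rfl fun i _ =>
      Nat.cast_sub (Nat.choose_le_choose 2 (Nat.succ_le_succ (hμ i)))
  rw [Finset.sum_sub_distrib, Finset.sum_const, Finset.card_univ, Fintype.card_fin,
    nsmul_eq_mul] at h7
  have h8 : (e : ℤ) + (k ^ 2 : ℕ) * ((b + 1).choose 2 : ℕ) = ((d + 1 + 1).choose 2 : ℕ) := by
    exact_mod_cast he
  have h9 := choose_nine (d + 1)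
  have h10 : 2 * ∑ i, ((((D.2 i).toNat + 1).choose 2 : ℕ) : ℤ) = ∑ i, D.2 i * (D.2 i + 1) := by
    rw [Finset.mul_sum]
    refine Finset.sum_congr rfl fun i _ => ?_
    rw [choose_nine]
    rcases (h1 i).eq_or_lt with h | h
    · rw [← h]
      rfl
    · rw [Int.toNat_of_nonneg (by omega)]
  unfold chi2
  rw [hd]
  push_cast at h9
  linarith

/-- `sq_up`, `Ex.ke_lower_up` (or a direct count), `hh_pad`, `hh_le_of_ke`, `hh_congr`. -/
theorem hh_std {k b : ℕ} (hk : k ≤ 3) (hr : r ≤ k ^ 2) {D : Cl r} (h1 : ∀ i, -1 ≤ D.2 i)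
    (h2 : ∀ i, D.2 i ≤ b) (h3 : (k * b : ℤ) ≤ D.1) : 2 * (hh D : ℤ) ≤ chi2 D := by
  have hf : Function.Injective (Fin.castLE hr) := Fin.castLE_injective hr
  rw [← hh_pad hf, ← chi2_pad_nine hf]
  refine hh_full_nine (b := b) hk (fun j => ?_) (fun j => ?_) h3
  · by_cases hj : ∃ i, Fin.castLE hr i = j
    · obtain ⟨i, rfl⟩ := hj
      rw [pad_in_nine hf]
      exact h1 i
    · rw [pad_out_nine D hj]
      omega
  · by_cases hj : ∃ i, Fin.castLE hr i = j
    · obtain ⟨i, rfl⟩ := hj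
      rw [pad_in_nine hf]
      exact h2 i
    · rw [pad_out_nine D hj]
      omega

/-- `sq_nag`. -/
theorem hh_sq {k m d : ℕ} (h : d < k * m) : hh (cl d fun _ : Fin (k ^ 2) => m) = 0 := by
  refine Nat.le_zero.1 (hh_le_of_ke ((sq_nag k m).mono fun s hs => ?_))
  have : s 0 + s 1 < d + 1 := hs
  change s 0 + s 1 < k * m
  omega

theorem pad_two_nine (D : Cl 2) :
    pad (Fin.castSucc : Fin 2 → Fin 3) D = (D.1, ![D.2 0, D.2 1, 0]) := by
  have hf : Function.Injective (Fin.castSucc : Fin 2 → Fin 3) := Fin.castSucc_injective 2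
  refine Prod.ext rfl (funext fun j => ?_)
  fin_cases j
  · exact pad_in_nine hf D 0
  · exact pad_in_nine hf D 1
  · exact pad_out_nine D (by decide)

theorem line_EE_nine : refl Finset.univ
    (pad (Fin.castSucc : Fin 2 → Fin 3) (cl 1 fun _ : Fin 2 => 1)) = EE 2 := by
  rw [pad_two_nine]
  decide

/-- Pad with a third point: `refl univ` sends `(1; 1, 1, 0)` to `EE 2`. -/
theorem line_two : Ind (cl 1 fun _ : Fin 2 => 1) ∧ Str (cl 1 fun _ : Fin 2 => 1) := by
  have hf : Function.Injective (Fin.castSucc : Fin 2 → Fin 3) := Fin.castSucc_injective 2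
  obtain ⟨w, hw, e⟩ := exists_good_refl (T := (Finset.univ : Finset (Fin 3))) (by simp)
  have e1 := (e _).trans line_EE_nine
  have h1 := hw.ind (e1 ▸ ind_EE 2)
  have h2 := hw.str (e1 ▸ str_EE 2)
  refine ⟨⟨hh_pad hf _ ▸ h1.1, fun α β h hα hβ => ?_⟩, fun D h h' => ?_⟩
  · exact (h1.2 (pad Fin.castSucc α) (pad Fin.castSucc β) (by rw [← pad_add_nine hf, h])
      (by rwa [hh_pad hf]) (by rwa [hh_pad hf])).imp (pad_zero_nine hf) (pad_zero_nine hf)
  · have := h2 (pad Fin.castSucc D) (by rwa [dot_pad_nine hf])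
      (by rwa [← pad_sub_nine hf, ← pad_sub_nine hf, hh_pad hf])
    rwa [← pad_sub_nine hf, ← pad_sub_nine hf, hh_pad hf, hh_pad hf] at this

/-- Cauchy-Schwarz: `(3 e - 1) ^ 2 ≤ r (e ^ 2 + 1)`. -/
theorem exc_two (hr : r ≤ 2) {e : ℕ} {n : Fin r → ℕ} (h1 : dot (cl e n) (cl e n) = -1)
    (h2 : kk (cl e n) = 1) : Str (cl e n) := by
  simp only [dot, kk, cl] at h1 h2
  have he : (0 : ℤ) ≤ e := Int.natCast_nonneg e
  obtain rfl | rfl | rfl : r = 0 ∨ r = 1 ∨ r = 2 := by omega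
  · simp only [Finset.univ_eq_empty, Finset.sum_empty] at h2
    omega
  · simp only [Fin.sum_univ_one] at h1 h2
    have h3 : (1 : ℤ) ≤ e := by omega
    have h4 : (n 0 : ℤ) = 3 * e - 1 := by omega
    rw [h4] at h1
    nlinarith
  · simp only [Fin.sum_univ_two] at h1 h2
    have h3 : (1 : ℤ) ≤ e := by omega
    have h4 : (n 1 : ℤ) = 3 * e - 1 - n 0 := by omega
    have h5 : (e : ℤ) ≤ 1 := by
      rw [h4] at h1
      nlinarith [sq_nonneg (2 * (n 0 : ℤ) - (3 * e - 1))]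
    obtain rfl : e = 1 := by omega
    have h6 : n 0 = 1 := by
      have h7 : ((n 0 : ℤ) - 1) ^ 2 = 0 := by
        rw [h4] at h1
        push_cast at h1
        nlinarith
      have := pow_eq_zero_iff (two_ne_zero) |>.1 h7
      omega
    have h8 : n 1 = 1 := by omega
    have h9 : n = fun _ => 1 := by
      funext i
      fin_cases i
      · exact h6
      · exact h8
    rw [h9]
    exact line_two.2

theorem num_good_nine {w : Cl r ≃+ Cl r} (h : Good w) {D : Cl r} (hD : ∀ l, 0 ≤ D.2 l)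
    (hr : r ≤ 9) {b : ℤ} (h2 : ∀ i, (w D).2 i ≤ b) (h3 : 3 * b ≤ (w D).1) : Num D := by
  by_cases hi : ∃ i, (w D).2 i ≤ -2
  · obtain ⟨i, hi⟩ := hi
    exact h.num_of_neg hD hi
  rcases lt_or_ge (w D).1 0 with h0 | h0
  · exact Or.inl (h.hh_eq D ▸ hh_of_neg h0)
  refine Or.inr (Or.inl ?_)
  rw [← h.hh_eq D, ← h.chi2_eq D]
  refine hh_std (k := 3) (b := b.toNat) le_rfl hr (fun i => ?_) (fun i => ?_) ?_
  · by_contra h4
    exact hi ⟨i, by omega⟩
  · have := h2 i
    omega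
  · push_cast
    omega

/-- `N` is carried to `N'` by a symmetry that fixes the anticanonical class. -/
def RelNine (N N' : Cl r) : Prop :=
  ∃ w : Cl r ≃+ Cl r, Good w ∧ w N = N' ∧ w (3, fun _ => 1) = (3, fun _ => 1)

theorem rel_id_nine (N : Cl r) : RelNine N N := ⟨AddEquiv.refl _, Good.id, rfl, rfl⟩

theorem rel_step_nine {N N' : Cl r} (h : RelNine N N') (T : Finset (Fin r)) (N'' : Cl r)
    (e : T.card = 3 ∧ refl T N' = N'') : RelNine N N'' := by
  obtain ⟨w, hw, h1, h2⟩ := h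
  obtain ⟨w', hw', e'⟩ := exists_good_refl e.1
  refine ⟨w.trans w', hw.trans hw', ?_, ?_⟩
  · rw [AddEquiv.trans_apply, h1, e', e.2]
  · rw [AddEquiv.trans_apply, h2, e']
    simp [refl, e.1]

theorem num_rel_nine (hr : r ≤ 9) {x y c : ℤ} {N : Cl r} (h : RelNine (x, fun _ => y) N)
    (hxy : x + 1 = 3 * y) (h1 : ∀ i, N.2 i ≤ c) (h2 : 3 * c ≤ N.1) {m d : ℕ} (hd : d < 3 * m) :
    Num (cl d fun _ : Fin r => m) := by
  obtain ⟨w, hw, e1, e2⟩ := h
  obtain ⟨a, ha⟩ : ∃ a : ℤ, a = 3 * m - d := ⟨_, rfl⟩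
  obtain ⟨b, hb⟩ : ∃ b : ℤ, b = m - y * a := ⟨_, rfl⟩
  have h0 : 0 ≤ a := by omega
  have e3 : (cl d fun _ : Fin r => m) = a • ((x, fun _ => y) : Cl r) + b • (3, fun _ => 1) := by
    refine Prod.ext ?_ (funext fun i => ?_)
    · change (d : ℤ) = a * x + b * 3
      rw [hb, show x = 3 * y - 1 by omega]
      linarith
    · change (m : ℤ) = a * y + b * 1
      rw [hb]
      ring
  have e4 : w (cl d fun _ : Fin r => m) = a • N + b • (3, fun _ => 1) := by
    rw [e3, map_add, map_zsmul, map_zsmul, e1, e2]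
  refine num_good_nine hw (fun _ => Int.natCast_nonneg m) hr (b := a * c + b) (fun i => ?_) ?_
  · rw [e4]
    change a * N.2 i + b * 1 ≤ _
    have := mul_le_mul_of_nonneg_left (h1 i) h0
    linarith
  · rw [e4]
    change _ ≤ a * N.1 + b * 3
    have := mul_le_mul_of_nonneg_left h2 h0
    linarith

theorem rel3_nine : RelNine ((2, fun _ => 1) : Cl 3) (1, fun _ => 0) :=
  rel_step_nine (rel_id_nine _) {0, 1, 2} _ (by decide)

theorem rel5_nine : RelNine ((5, fun _ => 2) : Cl 5) (3, ![0, 1, 1, 1, 1]) :=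
  rel_step_nine (rel_step_nine (rel_id_nine _) {0, 1, 2} (4, ![1, 1, 1, 2, 2]) (by decide))
    {0, 3, 4} _ (by decide)

theorem rel6_nine : RelNine ((5, fun _ => 2) : Cl 6) (1, fun _ => 0) := by
  have h1 := rel_step_nine (rel_id_nine ((5, fun _ => 2) : Cl 6)) {0, 1, 2}
    (4, ![1, 1, 1, 2, 2, 2]) (by decide)
  have h2 := rel_step_nine h1 {3, 4, 5} (2, ![1, 1, 1, 0, 0, 0]) (by decide)
  exact rel_step_nine h2 {0, 1, 2} _ (by decide)

theorem rel7_nine : RelNine ((8, fun _ => 3) : Cl 7) (1, fun _ => 0) := by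
  have h1 := rel_step_nine (rel_id_nine ((8, fun _ => 3) : Cl 7)) {0, 1, 2}
    (7, ![2, 2, 2, 3, 3, 3, 3]) (by decide)
  have h2 := rel_step_nine h1 {3, 4, 5} (5, ![2, 2, 2, 1, 1, 1, 3]) (by decide)
  have h3 := rel_step_nine h2 {0, 1, 6} (3, ![0, 0, 2, 1, 1, 1, 1]) (by decide)
  have h4 := rel_step_nine h3 {2, 3, 4} (2, ![0, 0, 1, 0, 0, 1, 1]) (by decide)
  exact rel_step_nine h4 {2, 5, 6} _ (by decide)

theorem rel8_nine : RelNine ((17, fun _ => 6) : Cl 8) (1, fun _ => 0) := by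
  have h1 := rel_step_nine (rel_id_nine ((17, fun _ => 6) : Cl 8)) {0, 1, 2}
    (16, ![5, 5, 5, 6, 6, 6, 6, 6]) (by decide)
  have h2 := rel_step_nine h1 {3, 4, 5} (14, ![5, 5, 5, 4, 4, 4, 6, 6]) (by decide)
  have h3 := rel_step_nine h2 {0, 6, 7} (11, ![2, 5, 5, 4, 4, 4, 3, 3]) (by decide)
  have h4 := rel_step_nine h3 {1, 2, 3} (8, ![2, 2, 2, 1, 4, 4, 3, 3]) (by decide)
  have h5 := rel_step_nine h4 {4, 5, 6} (5, ![2, 2, 2, 1, 1, 1, 0, 3]) (by decide)
  have h6 := rel_step_nine h5 {0, 1, 7} (3, ![0, 0, 2, 1, 1, 1, 0, 1]) (by decide)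
  have h7 := rel_step_nine h6 {2, 3, 4} (2, ![0, 0, 1, 0, 0, 1, 0, 1]) (by decide)
  exact rel_step_nine h7 {2, 5, 7} _ (by decide)

theorem num_std_nine {k : ℕ} (hk : k ≤ 3) (hr : r ≤ k ^ 2) {m d : ℕ} (h : k * m ≤ d) :
    Num (cl d fun _ : Fin r => m) :=
  Or.inr (Or.inl (hh_std (b := m) hk hr (fun _ => by simp only [cl]; omega) (fun _ => le_rfl)
    (by simp only [cl]; exact_mod_cast h)))

theorem num_two_nine {m d : ℕ} (h : d < 2 * m) : Num (cl d fun _ : Fin 2 => m) := by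
  have hf : Function.Injective (Fin.castSucc : Fin 2 → Fin 3) := Fin.castSucc_injective 2
  obtain ⟨w, hw, e⟩ := exists_good_refl (T := (Finset.univ : Finset (Fin 3))) (by simp)
  have e1 := (e _).trans line_EE_nine
  have e2 : w (pad Fin.castSucc (cl d fun _ : Fin 2 => m)) =
      (2 * ((d : ℤ) - m), ![(d : ℤ) - m, d - m, d - 2 * m]) := by
    rw [e, pad_two_nine]
    refine Prod.ext ?_ (funext fun j => ?_)
    · simp [refl, cl, Fin.sum_univ_three]
      ring
    · fin_cases j <;> simp [refl, cl, Fin.sum_univ_three] <;> ring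
  have e3 : ∀ D : Cl 2, hh D = hh (w (pad Fin.castSucc D)) := fun D => by
    rw [hw.hh_eq, hh_pad hf]
  rcases lt_or_ge d m with h1 | h1
  · refine Or.inl ?_
    rw [e3, e2]
    exact hh_of_neg (by simp only; omega)
  rcases lt_or_ge (d + 1) (2 * m) with h2 | h2
  · refine Or.inr (Or.inr ⟨1, fun _ => 1, le_rfl, line_two.1, by decide, by decide, ?_⟩)
    rw [e3, e3 (_ - _ - _), pad_sub_nine hf, pad_sub_nine hf, map_sub, map_sub, e1, e2]
    refine (hh_congr (by rw [sub_EE_fst, sub_EE_fst]) fun j => ?_).le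
    rw [sub_EE_snd, sub_EE_snd]
    fin_cases j
    · simp
    · simp
    · simp
      omega
  · refine Or.inr (Or.inl ?_)
    rw [e3, ← chi2_pad_nine hf, ← hw.chi2_eq, e2]
    refine hh_std (k := 2) (b := d - m) (by omega) (by omega) (fun j => ?_) (fun j => ?_) ?_
    · fin_cases j <;> simp <;> omega
    · fin_cases j <;> simp <;> omega
    · simp only
      omega

/-- Sketch. `3 m ≤ d`: `hh_std` with `k = 3`. `r = 0, 1, 4, 9`: `hh_std`, `hh_sq`.
`r = 3, 6, 7, 8`: the class `N = (2; 1), (5; 2), (8; 3), (17; 6)` is sent to `(1; 0)` by a list of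
quadratic transformations (always take the three largest multiplicities; check by `decide`), and
`K = (3; 1)` is fixed. Write `D = a • N + b • K`, `a = 3 m - d`; then `w D = (a + 3 b; b)`. For
`b ≤ -2` use `Good.num_of_neg`, otherwise `hh_of_neg` or `hh_std` and `Good.chi2_eq`.
`r = 5`: `N = (5; 2)` goes to `(3; 0, 1, 1, 1, 1)`. `r = 2`: for `2 m ≤ d` use `hh_std` with `k = 2`;
otherwise pad, `w D = (2 a; a, a, b)` with `a = d - m`, `b = d - 2 m`, and use `line_two`. -/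
theorem num_small (hr : r ≤ 9) (m d : ℕ) : Num (cl d fun _ : Fin r => m) := by
  rcases le_or_gt (3 * m) d with h3 | h3
  · exact num_std_nine le_rfl hr h3
  obtain rfl | rfl | rfl | rfl | rfl | rfl | rfl | rfl | rfl | rfl :
    r = 0 ∨ r = 1 ∨ r = 2 ∨ r = 3 ∨ r = 4 ∨ r = 5 ∨ r = 6 ∨ r = 7 ∨ r = 8 ∨ r = 9 := by omega
  · exact num_std_nine (k := 0) (by omega) (by omega) (by omega)
  · rcases le_or_gt (1 * m) d with h | h
    · exact num_std_nine (by omega) (by omega) h
    · exact Or.inl (hh_sq (k := 1) h)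
  · rcases le_or_gt (2 * m) d with h | h
    · exact num_std_nine (by omega) (by omega) h
    · exact num_two_nine h
  · exact num_rel_nine (c := 0) hr rel3_nine rfl (fun _ => le_rfl) (by decide) h3
  · rcases le_or_gt (2 * m) d with h | h
    · exact num_std_nine (by omega) (by omega) h
    · exact Or.inl (hh_sq (k := 2) h)
  · exact num_rel_nine (c := 1) hr rel5_nine rfl (by decide) (by decide) h3
  · exact num_rel_nine (c := 0) hr rel6_nine rfl (fun _ => le_rfl) (by decide) h3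
  · exact num_rel_nine (c := 0) hr rel7_nine rfl (fun _ => le_rfl) (by decide) h3
  · exact num_rel_nine (c := 0) hr rel8_nine rfl (fun _ => le_rfl) (by decide) h3
  · exact Or.inl (hh_sq (k := 3) h3)

end Pool.Agent.P.MP_8707bd_ag.Small
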