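import Pool.Agent.P.MP_8707bd_ag.Small.Crem
import Pool.Agent.P.MP_8707bd_ag.Small.Strict

/-!
The Weyl group and exceptional curves (helper file only).
-/

namespace Pool.Agent.P.MP_8707bd_ag.Small

open MvPolynomial Module All

variable {r : ℕ} {w : Cl r ≃+ Cl r}

theorem pos_weyl {p : Fin r → Fin 3 → ℂ} {D : Cl r} {G : MvPolynomial (Fin 3) ℂ}
    (h : G ∈ fz p D) (h0 : G ≠ 0) : 0 < finrank ℂ (fz p D) :=
  Nat.pos_of_ne_zero fun e => h0 (by
    rw [Submodule.finrank_eq_zero.1 e] at h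
    exact h)

theorem Good.id : Good (AddEquiv.refl (Cl r)) :=
  ⟨fun _ => rfl, fun _ _ => rfl, fun _ => rfl⟩

theorem Good.trans {w' : Cl r ≃+ Cl r} (h : Good w) (h' : Good w') : Good (w.trans w') :=
  ⟨fun D => (h'.hh_eq _).trans (h.hh_eq D), fun A B => (h'.dot_eq _ _).trans (h.dot_eq A B),
    fun A => (h'.kk_eq _).trans (h.kk_eq A)⟩

theorem Good.symm (h : Good w) : Good w.symm :=
  ⟨fun D => by rw [← h.hh_eq, w.apply_symm_apply],
    fun A B => by rw [← h.dot_eq, w.apply_symm_apply, w.apply_symm_apply],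
    fun A => by rw [← h.kk_eq, w.apply_symm_apply]⟩

theorem Good.chi2_eq (h : Good w) (D : Cl r) : chi2 (w D) = chi2 D := by
  rw [Small.chi2_eq, Small.chi2_eq, h.dot_eq, h.kk_eq]

theorem exists_good_refl {T : Finset (Fin r)} (hT : T.card = 3) :
    ∃ w : Cl r ≃+ Cl r, Good w ∧ ∀ D, w D = refl T D := by
  have hs : ∀ (f : Fin r → ℤ), ∑ i, (if i ∈ T then f i else 0) = ∑ i ∈ T, f i := fun f => by
    rw [Finset.sum_ite_mem, Finset.univ_inter]
  refine ⟨⟨⟨refl T, refl T, refl_refl hT, refl_refl hT⟩, fun A B => ?_⟩,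
    ⟨hh_refl hT, fun A B => ?_, fun A => ?_⟩, fun _ => rfl⟩
  · refine Prod.ext ?_ (funext fun i => ?_)
    · simp only [refl, Prod.fst_add, Prod.snd_add, Pi.add_apply, Finset.sum_add_distrib]
      ring
    · simp only [refl, Prod.fst_add, Prod.snd_add, Pi.add_apply, Finset.sum_add_distrib]
      split_ifs <;> ring
  · change dot (refl T A) (refl T B) = dot A B
    have e : ∀ i, (refl T A).2 i * (refl T B).2 i = A.2 i * B.2 i + if i ∈ T then
        (B.1 - ∑ i ∈ T, B.2 i) * A.2 i + (A.1 - ∑ i ∈ T, A.2 i) * B.2 i +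
          (A.1 - ∑ i ∈ T, A.2 i) * (B.1 - ∑ i ∈ T, B.2 i) else 0 := fun i => by
      simp only [refl]
      split_ifs <;> ring
    simp only [dot, e, Finset.sum_add_distrib, hs, ← Finset.mul_sum, Finset.sum_const, hT]
    simp only [refl, nsmul_eq_mul]
    push_cast
    ring
  · change kk (refl T A) = kk A
    simp only [kk, refl, Finset.sum_add_distrib, hs, Finset.sum_const, hT, nsmul_eq_mul]
    push_cast
    ring

/-- A product of quadratic transformations. -/
theorem exists_good_list (L : List (Finset (Fin r))) (hL : ∀ T ∈ L, T.card = 3) :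
    ∃ w : Cl r ≃+ Cl r, Good w ∧ ∀ D, w D = L.foldr refl D := by
  induction L with
  | nil => exact ⟨_, Good.id, fun _ => rfl⟩
  | cons T L ih =>
    obtain ⟨w, hw, e⟩ := ih fun T' h => hL T' (List.mem_cons_of_mem _ h)
    obtain ⟨w', hw', e'⟩ := exists_good_refl (hL T List.mem_cons_self)
    exact ⟨w.trans w', hw.trans hw', fun D => by
      rw [AddEquiv.trans_apply, e', e, List.foldr_cons]⟩

/-- Noether's inequality. Sketch: let `a ≥ b ≥ c` be the three largest multiplicities. Then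
`∑ n (n - c) ≤ a (a - c) + b (b - c)`, the left side is `e ^ 2 + 1 - c (3 e - 1)`, and
`e ≥ a + b + c` gives `e (e - 3 c) ≥ (a + b + c) (a + b - 2 c) ≥ a (a - c) + b (b - c)`. -/
theorem noether (hr : 3 ≤ r) {φ : Cl r} (h1 : dot φ φ = -1) (h2 : kk φ = 1) (h0 : ∀ i, 0 ≤ φ.2 i) :
    ∃ T : Finset (Fin r), T.card = 3 ∧ φ.1 < ∑ i ∈ T, φ.2 i := by
  have hne : ∀ S : Finset (Fin r), S.card < 3 → (Finset.univ \ S).Nonempty := fun S hS => by
    rw [← Finset.card_pos, Finset.card_univ_sdiff, Fintype.card_fin]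
    omega
  obtain ⟨i, -, hi⟩ := Finset.exists_max_image _ φ.2 (hne ∅ (by simp))
  obtain ⟨j, hj0, hj⟩ := Finset.exists_max_image _ φ.2 (hne {i} (by simp))
  have hji : j ≠ i := by simpa using hj0
  obtain ⟨l, hl0, hl⟩ := Finset.exists_max_image _ φ.2
    (hne {i, j} (by rw [Finset.card_pair hji.symm]; omega))
  have hl1 : l ≠ i ∧ l ≠ j := by simpa [not_or] using hl0
  refine ⟨{i, j, l}, Finset.card_eq_three.2 ⟨i, j, l, hji.symm, hl1.1.symm, hl1.2.symm, rfl⟩, ?_⟩
  rw [Finset.sum_insert (by simp [hji.symm, hl1.1.symm]), Finset.sum_pair hl1.2.symm]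
  by_contra hc
  have hc := not_lt.1 hc
  have a1 : φ.2 l ≤ φ.2 i := hi l (by simp)
  have a2 : φ.2 l ≤ φ.2 j := hj l (by simp [hl1.1])
  have e1 : ∑ m, φ.2 m * (φ.2 m - φ.2 l) = φ.1 * φ.1 + 1 - φ.2 l * (3 * φ.1 - 1) := by
    simp only [mul_sub, Finset.sum_sub_distrib, ← Finset.sum_mul]
    rw [dot] at h1
    rw [kk] at h2
    linear_combination -h1 + φ.2 l * h2
  have e2 : ∑ m ∈ Finset.univ \ {i, j}, φ.2 m * (φ.2 m - φ.2 l) ≤ 0 :=
    Finset.sum_nonpos fun m hm => mul_nonpos_of_nonneg_of_nonpos (h0 m) (sub_nonpos.2 (hl m hm))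
  have e3 := Finset.sum_sdiff (f := fun m => φ.2 m * (φ.2 m - φ.2 l))
    (Finset.subset_univ ({i, j} : Finset (Fin r)))
  rw [Finset.sum_pair hji.symm, e1] at e3
  have b1 := h0 i
  have b2 := h0 j
  have b3 := h0 l
  have c1 := mul_le_mul hc (show φ.2 i + φ.2 j - 2 * φ.2 l ≤ φ.1 - 3 * φ.2 l by omega)
    (by omega) (by omega)
  nlinarith [mul_nonneg (add_nonneg b2 b3) (sub_nonneg.2 a1),
    mul_nonneg (add_nonneg b1 b3) (sub_nonneg.2 a2)]

/-- Both summands have degree zero and nonpositive multiplicities (`nonneg_of_pos`). -/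
theorem ind_EE (i : Fin r) : Ind (EE i) := by
  refine ⟨hh_pos_of_nonpos rfl fun j => ?_, fun α β e ha hb => ?_⟩
  · simp only [EE, Pi.neg_apply, Pi.single_apply]
    split_ifs <;> omega
  · obtain ⟨a1, a2⟩ := nonneg_of_pos ha
    obtain ⟨b1, b2⟩ := nonneg_of_pos hb
    have e1 : α.1 + β.1 = 0 := congrArg Prod.fst e
    have e2 : ∀ j, α.2 j + β.2 j = -(if j = i then 1 else 0) := fun j => by
      have := congrFun (congrArg Prod.snd e) j
      simpa [EE, Pi.single_apply] using this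
    by_cases h : α.2 i = 0
    · refine Or.inl (Prod.ext (by change α.1 = 0; omega) (funext fun j => ?_))
      change α.2 j = 0
      have := e2 j
      have := a2 j
      have := b2 j
      split_ifs at * with hj
      · rw [hj, h]
      · omega
    · refine Or.inr (Prod.ext (by change β.1 = 0; omega) (funext fun j => ?_))
      change β.2 j = 0
      have := e2 j
      have := a2 j
      have := b2 j
      split_ifs at * with hj
      · subst hj
        omega
      · omega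

theorem Good.ind (h : Good w) {φ : Cl r} (hφ : Ind (w φ)) : Ind φ := by
  refine ⟨h.hh_eq φ ▸ hφ.1, fun α β e ha hb => ?_⟩
  have := hφ.2 (w α) (w β) (by rw [← map_add, e]) (by rwa [h.hh_eq]) (by rwa [h.hh_eq])
  simpa using this

/-- `dot_EE`, `hh_strict`. -/
theorem str_EE (i : Fin r) : Str (EE i) := fun D h1 h2 => by
  rw [dot_EE] at h1
  exact hh_strict (by rw [sub_EE_snd, if_pos rfl]; omega) h2

theorem Good.str (h : Good w) {φ : Cl r} (hφ : Str (w φ)) : Str φ := fun D h1 h2 => by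
  have := hφ (w D) (by rwa [h.dot_eq]) (by rwa [← map_sub, ← map_sub, h.hh_eq])
  rwa [← map_sub, ← map_sub, h.hh_eq, h.hh_eq] at this

/-- Sketch: `C = w.symm (EE i)`, `hh (φ - C) = hh (w φ - EE i) = hh (w φ) = hh φ` (`hh_congr`);
take `Γ ≠ 0` in `fz p C`; `exists_mul_of_rank` gives `F = Γ * H`. If `Γ` is a unit then
`0 ≤ dot φ C = (w φ).2 i`; if `H` is a unit then `φ = C` (`eq_zero_of_isUnit`, `Exact.le`). -/
theorem eq_EE_of_neg {p : Fin r → Fin 3 → ℂ} {F : MvPolynomial (Fin 3) ℂ} {e : ℕ} {n : Fin r → ℕ}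
    (hF : Exact p F e n) (hi : Irreducible F) (hp : finrank ℂ (fz p (cl e n)) = hh (cl e n))
    (h : Good w) {i : Fin r} (hneg : (w (cl e n)).2 i < 0) : w (cl e n) = EE i := by
  have hC : 0 < hh (w.symm (EE i)) := by
    rw [h.symm.hh_eq]
    exact (ind_EE i).1
  have e1 : hh (cl e n - w.symm (EE i)) = hh (cl e n) := by
    rw [← h.hh_eq, map_sub, w.apply_symm_apply, ← h.hh_eq (cl e n)]
    refine hh_congr (sub_EE_fst _ i) fun j => ?_
    rw [sub_EE_snd]
    split_ifs with hj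
    · subst hj
      omega
    · rw [add_zero]
  obtain ⟨Γ, hΓ, h0⟩ := exists_ne_zero p hC
  obtain ⟨H, hH, e2⟩ := exists_mul_of_rank (D := cl e n) h0 hΓ
    (by rw [hp, ← e1]; exact hh_le p _) F hF.mem
  rcases hi.isUnit_or_isUnit e2 with hu | hu
  · exfalso
    obtain ⟨a1, a2⟩ := eq_zero_of_isUnit hu hΓ
    have e3 : dot (cl e n) (w.symm (EE i)) = (w (cl e n)).2 i := by
      rw [← h.dot_eq, w.apply_symm_apply, dot_EE]
    have e4 : ∑ j, (cl e n).2 j * (w.symm (EE i)).2 j ≤ 0 := Finset.sum_nonpos fun j _ =>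
      mul_nonpos_of_nonneg_of_nonpos (Int.natCast_nonneg _) (a2 j)
    rw [dot, a1, mul_zero] at e3
    omega
  · obtain ⟨a1, a2⟩ := eq_zero_of_isUnit hu hH
    have h1 := fz_mul hΓ (fz_mono p (D' := 0) a1 (fun j => Nat.zero_le _) hH)
    rw [← e2, add_zero] at h1
    obtain ⟨b1, b2⟩ := hF.le h1
    rw [← w.eq_symm_apply]
    refine Prod.ext b1.symm (funext fun j => le_antisymm ?_ (b2 j))
    exact sub_nonpos.1 (a2 j)

/-- Choose `w` such that the degree of `w φ` is minimal; `noether`, `eq_EE_of_neg`. -/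
theorem exists_good_EE (hr : 3 ≤ r) {p : Fin r → Fin 3 → ℂ} {F : MvPolynomial (Fin 3) ℂ} {e : ℕ}
    {n : Fin r → ℕ} (hF : Exact p F e n) (hi : Irreducible F)
    (hp : finrank ℂ (fz p (cl e n)) = hh (cl e n)) (h1 : dot (cl e n) (cl e n) = -1)
    (h2 : kk (cl e n) = 1) : ∃ (w : Cl r ≃+ Cl r) (i : Fin r), Good w ∧ w (cl e n) = EE i := by
  have hpos : 0 < hh (cl e n) := by
    rw [← hp]
    exact pos_weyl hF.mem hF.1
  have key : ∀ (m : ℕ) (w : Cl r ≃+ Cl r), Good w → (w (cl e n)).1 < m →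
      ∃ (w : Cl r ≃+ Cl r) (i : Fin r), Good w ∧ w (cl e n) = EE i := by
    intro m
    induction m with
    | zero =>
      intro w hw hm
      have := (nonneg_of_pos (D := w (cl e n)) (by rwa [hw.hh_eq])).1
      omega
    | succ m ih =>
      intro w hw hm
      by_cases hn : ∀ i, 0 ≤ (w (cl e n)).2 i
      · obtain ⟨T, hT, hlt⟩ := noether hr (by rwa [hw.dot_eq]) (by rwa [hw.kk_eq]) hn
        obtain ⟨w', hw', e'⟩ := exists_good_refl hT
        refine ih (w.trans w') (hw.trans hw') ?_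
        rw [AddEquiv.trans_apply, e']
        simp only [refl]
        push_cast at hm
        omega
      · push Not at hn
        obtain ⟨i, hi'⟩ := hn
        exact ⟨w, i, hw, eq_EE_of_neg hF hi hp hw hi'⟩
  exact key (e + 1) _ Good.id (by simp [cl])

/-- Sketch: take `F ≠ 0` in the system, with exact multiplicities `n'`; split
`cl e n = cl e n' + (0, n - n')`. If `F = A * B` split along the exact class of `A`
(`hom_factor`, `exists_exact`, `Exact.div`). -/
theorem Ind.exists_irreducible {e B : ℕ} {n : Fin r → ℕ} (h : Ind (cl e n)) (he : 1 ≤ e)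
    (hB : e ≤ B) {p : Fin r → Fin 3 → ℂ} (hp : Gen B p) :
    ∃ F, Exact p F e n ∧ Irreducible F := by
  have hpos : ∀ {D : Cl r} {G : MvPolynomial (Fin 3) ℂ}, D.1 ≤ e → G ∈ fz p D → G ≠ 0 →
      0 < hh D := fun {D G} h1 h2 h3 => by
    rw [← hp.2 D (h1.trans (by exact_mod_cast hB))]
    exact pos_weyl h2 h3
  obtain ⟨F, hF, h0⟩ := exists_ne_zero p h.1
  obtain ⟨n', hn'⟩ := exists_exact p h0 (mem_fz_cl.1 hF).1
  have hle := (hn'.le hF).2
  have hn : n' = n := by
    rcases h.2 (cl e n') (cl e n - cl e n') (by abel) (hpos le_rfl hn'.mem h0)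
      (hh_pos_of_nonpos (by simp [cl]) fun j => sub_nonpos.2 (hle j)) with h1 | h1
    · have : (e : ℤ) = 0 := congrArg Prod.fst h1
      omega
    · funext j
      have : (n j : ℤ) = n' j := congrFun (congrArg Prod.snd (sub_eq_zero.1 h1)) j
      omega
  subst hn
  refine ⟨F, hn', fun hu => ?_, fun A C e1 => ?_⟩
  · have : (e : ℤ) = 0 := (eq_zero_of_isUnit hu hF).1
    omega
  · have hA : A ≠ 0 := left_ne_zero_of_mul (e1 ▸ h0)
    have hC : C ≠ 0 := right_ne_zero_of_mul (e1 ▸ h0)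
    obtain ⟨a, ha⟩ := hom_factor (e1 ▸ h0) (e1 ▸ hn'.2.1)
    obtain ⟨m, hm⟩ := exists_exact p hA ha
    have h2 := hm.div (e1 ▸ hF)
    obtain ⟨b1, b2, -⟩ := (mem_fz.1 h2).resolve_left hC
    have b3 : (cl e n' - cl a m).1 = e - a := rfl
    rcases h.2 (cl a m) (cl e n' - cl a m) (by abel)
      (hpos (by change (a : ℤ) ≤ e; omega) hm.mem hA) (hpos (by omega) h2 hC) with h1 | h1
    · have : (a : ℤ) = 0 := congrArg Prod.fst h1
      exact Or.inl (isUnit_of_hom_zero hA ((by omega : a = 0) ▸ ha))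
    · rw [h1] at b2
      exact Or.inr (isUnit_of_hom_zero hC b2)

/-- Sketch: `φ = w.symm (EE i)`. If `φ.1 = 0` then `φ.2 ≤ 0` and `0 ≤ dot D φ`, which is false; if
`φ.2 l < 0` split `φ = (φ - EE l) + EE l`. So `φ = cl e n` with `1 ≤ e`. -/
theorem Good.num_of_neg (h : Good w) {D : Cl r} (hD : ∀ l, 0 ≤ D.2 l) {i : Fin r}
    (hi : (w D).2 i ≤ -2) : Num D := by
  have hI : Ind (w.symm (EE i)) := h.ind (by rw [w.apply_symm_apply]; exact ind_EE i)
  have d1 : dot (w.symm (EE i)) (w.symm (EE i)) = -1 := by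
    rw [h.symm.dot_eq, dot_EE]
    simp [EE]
  have d2 : kk (w.symm (EE i)) = 1 := by rw [h.symm.kk_eq, kk_EE]
  have d3 : dot D (w.symm (EE i)) = (w D).2 i := by rw [← h.dot_eq, w.apply_symm_apply, dot_EE]
  have d4 : hh (D - w.symm (EE i) - w.symm (EE i)) = hh D := by
    rw [← h.hh_eq, map_sub, map_sub, w.apply_symm_apply, ← h.hh_eq D]
    refine hh_congr (by rw [sub_EE_fst, sub_EE_fst]) fun j => ?_
    rw [sub_EE_snd, sub_EE_snd]
    split_ifs with hj
    · subst hj
      omega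
    · rw [add_zero, add_zero]
  generalize w.symm (EE i) = φ at hI d1 d2 d3 d4
  obtain ⟨a1, a2⟩ := nonneg_of_pos hI.1
  have a3 : φ.1 ≠ 0 := fun h0 => by
    have e4 : ∑ j, D.2 j * φ.2 j ≤ 0 := Finset.sum_nonpos fun j _ =>
      mul_nonpos_of_nonneg_of_nonpos (hD j) (h0 ▸ a2 j)
    rw [dot, h0, mul_zero] at d3
    omega
  have a4 : ∀ l, 0 ≤ φ.2 l := fun l => by
    by_contra hl
    have e1 : hh (φ - EE l) = hh φ := by
      refine hh_congr (sub_EE_fst _ l) fun j => ?_
      rw [sub_EE_snd]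
      split_ifs with hj
      · subst hj
        omega
      · rw [add_zero]
    rcases hI.2 (φ - EE l) (EE l) (by abel) (e1 ▸ hI.1) (ind_EE l).1 with h1 | h1
    · exact a3 ((sub_EE_fst φ l).symm.trans (congrArg Prod.fst h1))
    · have := kk_EE l
      rw [h1] at this
      simp [kk] at this
  have e : φ = cl φ.1.toNat fun l => (φ.2 l).toNat :=
    Prod.ext (Int.toNat_of_nonneg a1).symm (funext fun l => (Int.toNat_of_nonneg (a4 l)).symm)
  refine Or.inr (Or.inr ⟨φ.1.toNat, fun l => (φ.2 l).toNat, by omega, ?_⟩)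
  rw [← e]
  exact ⟨hI, d1, d2, d4.ge⟩

end Pool.Agent.P.MP_8707bd_ag.Small
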